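import Pool.Agent.H74.CO.Defs

/-!
# Convex orderability passes to all models of the complete theory
-/

set_option autoImplicit false

namespace Pool.Agent.H74.CO

open Set FirstOrder FirstOrder.Language Filter

universe u v w w'

/-- No alternation of length `K`. -/
def NoAlt {N : Type w} [LinearOrder N] (K : ℕ) (X : Set N) : Prop :=
  ∀ x : Fin (K + 1) → N, StrictMono x → (∀ i, x i ∈ X) →
    ∃ i : Fin K, Set.Icc (x i.castSucc) (x i.succ) ⊆ X

lemma noAlt_of_cover {N : Type w} [LinearOrder N] {K : ℕ} {X : Set N} (C : Fin K → Set N)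
    (hC : ∀ i, (C i).OrdConnected) (hX : X = ⋃ i, C i) : NoAlt K X := by
  intro x hx hxX
  have hex : ∀ i, ∃ j, x i ∈ C j := by
    intro i
    have := hxX i
    rw [hX] at this
    exact Set.mem_iUnion.mp this
  choose f hf using hex
  have key : ∀ i j, i < j → f i = f j → ∃ i : Fin K, Set.Icc (x i.castSucc) (x i.succ) ⊆ X := by
    intro i j hij hfij
    have hiK : (i : ℕ) < K := by
      have := j.2
      have : (i : ℕ) < j := hij
      omega
    refine ⟨⟨i, hiK⟩, ?_⟩
    have h1 : Set.Icc (x i) (x j) ⊆ C (f i) := (hC (f i)).out (hf i) (by rw [hfij]; exact hf j)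
    have h2 : (⟨i, hiK⟩ : Fin K).castSucc = i := rfl
    have h3 : (⟨i, hiK⟩ : Fin K).succ ≤ j := by
      rw [Fin.le_def]
      simp only [Fin.val_succ]
      exact hij
    rw [h2]
    refine (Set.Icc_subset_Icc_right (hx.monotone h3)).trans (h1.trans ?_)
    rw [hX]
    exact Set.subset_iUnion _ _
  obtain ⟨i, j, hij, hfij⟩ := Fintype.exists_ne_map_eq_of_card_lt f (by simp)
  rcases lt_or_gt_of_ne hij with h | h
  · exact key i j h hfij
  · exact key j i h hfij.symm

lemma cover_of_noAlt {N : Type w} [LinearOrder N] {K : ℕ} {X : Set N} (h : NoAlt K X) :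
    ∃ C : Fin K → Set N, (∀ i, (C i).OrdConnected) ∧ X = ⋃ i, C i := by
  classical
  let Q : ℕ → Prop := fun m => ∃ r : Finset N, r.card = m ∧ (∀ x ∈ r, x ∈ X) ∧
    ∀ x ∈ r, ∀ y ∈ r, x < y → ¬ Set.Icc x y ⊆ X
  have hQ : ¬ Q (K + 1) := by
    rintro ⟨r, hr, hrX, hrs⟩
    obtain ⟨i, hi⟩ := h (r.orderEmbOfFin hr) (r.orderEmbOfFin hr).strictMono
      (fun i => hrX _ (Finset.orderEmbOfFin_mem r hr i))
    exact hrs _ (Finset.orderEmbOfFin_mem r hr _) _ (Finset.orderEmbOfFin_mem r hr _)
      ((r.orderEmbOfFin hr).strictMono (Fin.castSucc_lt_succ)) hi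
  have hQ0 : Q 0 := ⟨∅, rfl, by simp, by simp⟩
  have hex : ∃ m, ¬ Q m := ⟨K + 1, hQ⟩
  let m := Nat.find hex
  have hm : ¬ Q m := Nat.find_spec hex
  have hm0 : m ≠ 0 := fun h0 => hm (by rw [h0]; exact hQ0)
  have hmK : m ≤ K + 1 := Nat.find_min' hex hQ
  obtain ⟨k, hk⟩ : ∃ k, m = k + 1 := ⟨m - 1, by omega⟩
  have hQk : Q k := by
    by_contra hc
    have := Nat.find_min' hex hc
    have : m ≤ k := this
    omega
  obtain ⟨r, hr, hrX, hrs⟩ := hQk
  have hcov : ∀ x ∈ X, ∃ y ∈ r, x ∈ Set.ordConnectedComponent X y := by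
    intro x hx
    by_contra hcon
    push Not at hcon
    have hxr : x ∉ r := fun hxr => hcon x hxr (Set.self_mem_ordConnectedComponent.mpr hx)
    apply hm
    rw [hk]
    refine ⟨insert x r, by rw [Finset.card_insert_of_notMem hxr, hr], ?_, ?_⟩
    · intro y hy
      rcases Finset.mem_insert.mp hy with rfl | hy
      · exact hx
      · exact hrX y hy
    · intro y hy z hz hyz hsub
      rcases Finset.mem_insert.mp hy with h1 | h1 <;> rcases Finset.mem_insert.mp hz with h2 | h2
      · rw [h1, h2] at hyz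
        exact lt_irrefl _ hyz
      · apply hcon z h2
        rw [h1] at hyz hsub
        rw [Set.mem_ordConnectedComponent, Set.uIcc_comm, Set.uIcc_of_le hyz.le]
        exact hsub
      · apply hcon y h1
        rw [h2] at hyz hsub
        rw [Set.mem_ordConnectedComponent, Set.uIcc_of_le hyz.le]
        exact hsub
      · exact hrs y h1 z h2 hyz hsub
  refine ⟨fun i => if hi : (i : ℕ) < r.card then
    Set.ordConnectedComponent X (r.equivFin.symm ⟨i, hi⟩) else ∅, ?_, ?_⟩
  · intro i
    by_cases hi : (i : ℕ) < r.card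
    · simp only [hi, dif_pos]
      infer_instance
    · simp only [hi, dif_neg, not_false_eq_true]
      exact Set.ordConnected_empty
  · ext x
    simp only [Set.mem_iUnion]
    constructor
    · intro hx
      obtain ⟨y, hy, hxy⟩ := hcov x hx
      have hlt : (r.equivFin ⟨y, hy⟩ : ℕ) < K := by
        have := (r.equivFin ⟨y, hy⟩).2
        omega
      refine ⟨⟨r.equivFin ⟨y, hy⟩, hlt⟩, ?_⟩
      have h2 : ((⟨r.equivFin ⟨y, hy⟩, hlt⟩ : Fin K) : ℕ) < r.card := (r.equivFin ⟨y, hy⟩).2
      rw [dif_pos h2]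
      simpa using hxy
    · rintro ⟨i, hi⟩
      by_cases h2 : (i : ℕ) < r.card
      · rw [dif_pos h2] at hi
        exact Set.ordConnectedComponent_subset hi
      · rw [dif_neg h2] at hi
        exact absurd hi (Set.notMem_empty x)

/-- Finitely many facts true in `N` can be copied into `M`. -/
lemma exists_copy {L : FirstOrder.Language.{u, v}} (M : Type w) [L.Structure M] [Nonempty M]
    (N : Type w') [L.Structure N] [Nonempty N] [N ⊨ L.completeTheory M]
    (s : Finset (Σ m : ℕ, L.Formula (Fin m) × (Fin m → N)))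
    (hs : ∀ d ∈ s, d.2.1.Realize d.2.2) :
    ∃ h : N → M, ∀ d ∈ s, d.2.1.Realize (h ∘ d.2.2) := by
  classical
  let S : Finset N := s.biUnion fun d => Finset.univ.image d.2.2
  have hS : ∀ d : s, ∀ i, d.1.2.2 i ∈ S := fun d i =>
    Finset.mem_biUnion.mpr ⟨d.1, d.2, Finset.mem_image.mpr ⟨i, Finset.mem_univ _, rfl⟩⟩
  let χ : L.Formula S := Formula.iInf fun d : s =>
    d.1.2.1.relabel (fun i => (⟨d.1.2.2 i, hS d i⟩ : S))
  have h1 : χ.Realize (fun x : S => (x : N)) := by
    rw [Formula.realize_iInf]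
    intro d
    rw [Formula.realize_relabel]
    exact hs d.1 d.2
  have h2 : N ⊨ ((χ.relabel (Sum.inr : S → Empty ⊕ S)).iExs S : L.Sentence) := by
    rw [Sentence.Realize, Formula.realize_iExs]
    refine ⟨fun x : S => (x : N), ?_⟩
    rw [Formula.realize_relabel]
    exact h1
  rw [realize_iff_of_model_completeTheory M N, Sentence.Realize, Formula.realize_iExs] at h2
  obtain ⟨g, hg⟩ := h2
  rw [Formula.realize_relabel, Formula.realize_iInf] at hg
  refine ⟨fun x => if hx : x ∈ S then g ⟨x, hx⟩ else Classical.arbitrary M, ?_⟩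
  intro d hd
  have h3 := hg ⟨d, hd⟩
  rw [Formula.realize_relabel] at h3
  convert h3 using 1
  funext i
  simp only [Function.comp, Sum.elim_inr]
  rw [dif_pos (hS ⟨d, hd⟩ i)]

/-- Convex orderability passes to all models of the complete theory. -/
theorem convexlyOrderable_of_model {L : FirstOrder.Language.{u, v}} (M : Type w) [L.Structure M]
    [Nonempty M] (hM : ConvexlyOrderable L M) (N : Type w') [L.Structure N] [Nonempty N]
    [N ⊨ L.completeTheory M] : ConvexlyOrderable L N := by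
  classical
  obtain ⟨lo, hlo⟩ := hM
  let D := {d : Σ m : ℕ, L.Formula (Fin m) × (Fin m → N) // d.2.1.Realize d.2.2}
  have hcopy : ∀ s : Finset D, ∃ h : N → M, ∀ d ∈ s, d.1.2.1.Realize (h ∘ d.1.2.2) := by
    intro s
    obtain ⟨h, hh⟩ := exists_copy (L := L) M N (s.image Subtype.val) (by
      intro d hd
      obtain ⟨d', -, rfl⟩ := Finset.mem_image.mp hd
      exact d'.2)
    exact ⟨h, fun d hd => hh d.1 (Finset.mem_image.mpr ⟨d, hd, rfl⟩)⟩
  choose h hh using hcopy
  let 𝒰 : Ultrafilter (Finset D) := Ultrafilter.of atTop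
  have h𝒰 : ∀ d : D, ∀ᶠ s in (𝒰 : Filter (Finset D)), d ∈ s := by
    intro d
    filter_upwards [(Ultrafilter.of_le atTop) (Filter.mem_atTop ({d} : Finset D))] with s hs
    exact hs (Finset.mem_singleton_self d)
  have key1 : ∀ {m : ℕ} (φ : L.Formula (Fin m)) (a : Fin m → N), φ.Realize a →
      ∀ᶠ s in (𝒰 : Filter (Finset D)), φ.Realize (h s ∘ a) := by
    intro m φ a hφ
    filter_upwards [h𝒰 ⟨⟨m, φ, a⟩, hφ⟩] with s hs
    exact hh s _ hs
  have key : ∀ {m : ℕ} (φ : L.Formula (Fin m)) (a : Fin m → N), φ.Realize a ↔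
      ∀ᶠ s in (𝒰 : Filter (Finset D)), φ.Realize (h s ∘ a) := by
    intro m φ a
    refine ⟨key1 φ a, fun h1 => ?_⟩
    by_contra hφ
    have h2 := key1 φ.not a (by rw [Formula.realize_not]; exact hφ)
    obtain ⟨s, h3, h4⟩ := (h1.and h2).exists
    rw [Formula.realize_not] at h4
    exact h4 h3
  -- the order on `N`
  let lN : LinearOrder N :=
    { le := fun a b => ∀ᶠ s in (𝒰 : Filter (Finset D)), h s a ≤ h s b
      le_refl := fun a => Filter.Eventually.of_forall fun s => le_refl _
      le_trans := fun a b c h1 h2 => by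
        filter_upwards [h1, h2] with s h3 h4
        exact le_trans h3 h4
      le_antisymm := fun a b h1 h2 => by
        have h3 : ∀ᶠ s in (𝒰 : Filter (Finset D)), h s a = h s b := by
          filter_upwards [h1, h2] with s h3 h4
          exact le_antisymm h3 h4
        have h4 := (key ((Term.var 0).equal (Term.var 1) : L.Formula (Fin 2)) ![a, b]).mpr (by
          filter_upwards [h3] with s hs
          rw [Formula.realize_equal]
          simpa using hs)
        rw [Formula.realize_equal] at h4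
        simpa using h4
      le_total := fun a b => by
        by_cases h1 : ∀ᶠ s in (𝒰 : Filter (Finset D)), h s a ≤ h s b
        · exact Or.inl h1
        · right
          rw [← Ultrafilter.eventually_not] at h1
          filter_upwards [h1] with s hs
          exact (lt_of_not_ge hs).le
      toDecidableLE := Classical.decRel _ }
  have hlt : ∀ a b : N, @LT.lt N lN.toLT a b → ∀ᶠ s in (𝒰 : Filter (Finset D)), h s a < h s b := by
    intro a b hab
    have h1 : ¬ ∀ᶠ s in (𝒰 : Filter (Finset D)), h s b ≤ h s a := by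
      intro h2
      exact absurd h2 (@not_le_of_gt N lN.toPreorder _ _ hab)
    rw [← Ultrafilter.eventually_not] at h1
    filter_upwards [h1] with s hs
    exact lt_of_not_ge hs
  refine ⟨lN, fun n φ => ?_⟩
  obtain ⟨K, hK⟩ := hlo n φ
  refine ⟨K, fun b => ?_⟩
  apply @cover_of_noAlt N lN
  intro x hx hxX
  by_contra hcon
  push Not at hcon
  have hz : ∀ i : Fin K, ∃ z, @LE.le N lN.toLE (x i.castSucc) z ∧ @LE.le N lN.toLE z (x i.succ) ∧
      z ∉ inst N φ b := by
    intro i
    obtain ⟨z, hz1, hz2⟩ := Set.not_subset.mp (hcon i)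
    exact ⟨z, hz1.1, hz1.2, hz2⟩
  choose z hz1 hz2 hz3 using hz
  have hmem : ∀ y : N, y ∈ inst N φ b → ∀ᶠ s in (𝒰 : Filter (Finset D)),
      h s y ∈ inst M φ (h s ∘ b) := by
    intro y hy
    have := (key φ (Fin.cons y b : Fin (n + 1) → N)).mp hy
    filter_upwards [this] with s hs
    have e : (h s ∘ (Fin.cons y b : Fin (n + 1) → N)) = Fin.cons (h s y) (h s ∘ b) := by
      funext i
      refine Fin.cases ?_ (fun i => ?_) i <;> rfl
    rw [e] at hs
    exact hs
  have hnmem : ∀ y : N, y ∉ inst N φ b → ∀ᶠ s in (𝒰 : Filter (Finset D)),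
      h s y ∉ inst M φ (h s ∘ b) := by
    intro y hy
    have := (key φ.not (Fin.cons y b : Fin (n + 1) → N)).mp (by
      rw [Formula.realize_not]; exact hy)
    filter_upwards [this] with s hs
    have e : (h s ∘ (Fin.cons y b : Fin (n + 1) → N)) = Fin.cons (h s y) (h s ∘ b) := by
      funext i
      refine Fin.cases ?_ (fun i => ?_) i <;> rfl
    rw [e, Formula.realize_not] at hs
    exact hs
  have ev1 : ∀ᶠ s in (𝒰 : Filter (Finset D)), ∀ i : Fin K, h s (x i.castSucc) < h s (x i.succ) :=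
    Filter.eventually_all.mpr fun i => hlt _ _ (hx Fin.castSucc_lt_succ)
  have ev2 : ∀ᶠ s in (𝒰 : Filter (Finset D)), ∀ i : Fin (K + 1),
      h s (x i) ∈ inst M φ (h s ∘ b) :=
    Filter.eventually_all.mpr fun i => hmem _ (hxX i)
  have ev3 : ∀ᶠ s in (𝒰 : Filter (Finset D)), ∀ i : Fin K, h s (x i.castSucc) ≤ h s (z i) :=
    Filter.eventually_all.mpr fun i => hz1 i
  have ev4 : ∀ᶠ s in (𝒰 : Filter (Finset D)), ∀ i : Fin K, h s (z i) ≤ h s (x i.succ) :=
    Filter.eventually_all.mpr fun i => hz2 i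
  have ev5 : ∀ᶠ s in (𝒰 : Filter (Finset D)), ∀ i : Fin K, h s (z i) ∉ inst M φ (h s ∘ b) :=
    Filter.eventually_all.mpr fun i => hnmem _ (hz3 i)
  obtain ⟨s, ⟨⟨⟨s1, s2⟩, s3⟩, s4⟩, s5⟩ := ((((ev1.and ev2).and ev3).and ev4).and ev5).exists
  obtain ⟨C, hC, hCX⟩ := hK (h s ∘ b)
  obtain ⟨i, hi⟩ := noAlt_of_cover C hC hCX (fun i => h s (x i))
    (Fin.strictMono_iff_lt_succ.mpr s1) s2
  exact s5 i (hi ⟨s3 i, s4 i⟩)

end Pool.Agent.H74.CO
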