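import Mathlib

/-!
# The group of translations of a model
-/

set_option autoImplicit false

namespace Pool.Agent.H74.CO

universe u

/-- `y` is reached from `x` by `n` translations by `h`. -/
def chain {N : Type u} (A : N → N → N → Prop) : ℕ → N → N → N → Prop
  | 0, _, x, y => x = y
  | n + 1, h, x, y => ∃ z, chain A n h x z ∧ A h z y

/-- Axioms: `A g x y` says that `g` translates `x` to `y`; `J x` is a half circle. -/
structure Ax {N : Type u} (A : N → N → N → Prop) (J : N → N → Prop) : Prop where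
  tot : ∀ g x y z, A g x y → ∃ w, A g z w
  fn : ∀ g x y y', A g x y → A g x y' → y = y'
  free : ∀ g g' x y, A g x y → A g' x y → g = g'
  compEx : ∀ g h x y z, A g x y → A h y z → ∃ k, A k x z
  comp : ∀ g h k x y z w w' w'', A g x y → A h y z → A k x z → A g w w' → A h w' w'' → A k w w''
  one : ∃ e, ∀ x, A e x x
  inv : ∀ g x y, A g x y → ∃ h, A h y x
  div : ∀ n : ℕ, 0 < n → ∀ g x y, A g x y → ∃ h, chain A n h x y
  inf : ∀ (n : ℕ) (x : Fin n → N), ∃ y, ∀ i, ¬ ∃ g, A g (x i) y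
  tau : ∃ t, (∃ x y, A t x y) ∧ ∀ x x' y, A t x x' →
    (J x y → ∃ g, A g x y) ∧ ((∃ g, A g x y) → (J x' y ↔ ¬ J x y))

namespace Ax

variable {N : Type u} {A : N → N → N → Prop} {J : N → N → Prop}

/-- Every code is the code of a permutation. -/
lemma exists_perm (hA : Ax A J) (g x y : N) (hg : A g x y) :
    ∃ π : Equiv.Perm N, ∀ z, A g z (π z) := by
  classical
  obtain ⟨e, he⟩ := hA.one
  obtain ⟨h, hh⟩ := hA.inv g x y hg
  choose f hf using fun z => hA.tot g x y z hg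
  choose f' hf' using fun z => hA.tot h y x z hh
  refine ⟨⟨f, f', ?_, ?_⟩, hf⟩
  · intro z
    -- g then h
    have h1 := hA.comp g h e x y x z (f z) (f' (f z)) hg hh (he x) (hf z) (hf' (f z))
    exact (hA.fn e z _ _ h1 (he z))
  · intro z
    have h1 := hA.comp h g e y x y z (f' z) (f (f' z)) hh hg (he y) (hf' z) (hf (f' z))
    exact (hA.fn e z _ _ h1 (he z))

variable [Nonempty N]

/-- The group of translations. -/
def grp (hA : Ax A J) : Subgroup (Equiv.Perm N) where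
  carrier := {π | ∃ g, ∀ x, A g x (π x)}
  one_mem' := hA.one
  mul_mem' := by
    rintro a b ⟨g, hg⟩ ⟨h, hh⟩
    obtain ⟨x⟩ := ‹Nonempty N›
    obtain ⟨k, hk⟩ := hA.compEx h g x (b x) (a (b x)) (hh x) (hg (b x))
    exact ⟨k, fun z => hA.comp h g k x (b x) (a (b x)) z (b z) (a (b z)) (hh x) (hg _) hk
      (hh z) (hg _)⟩
  inv_mem' := by
    rintro a ⟨g, hg⟩
    obtain ⟨x⟩ := ‹Nonempty N›
    obtain ⟨e, he⟩ := hA.one
    obtain ⟨h, hh⟩ := hA.inv g x (a x) (hg x)
    refine ⟨h, fun z => ?_⟩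
    obtain ⟨w, hw⟩ := hA.tot h (a x) x z hh
    have h1 := hA.comp h g e (a x) x (a x) z w (a w) hh (hg x) (he _) hw (hg w)
    have h2 := hA.fn e z _ _ h1 (he z)
    have h3 : a⁻¹ z = w := by
      rw [← h2]
      simp
    rw [h3]
    exact hw

/-- The code of a translation. -/
noncomputable def code (hA : Ax A J) (π : hA.grp) : N := π.2.choose

lemma code_spec (hA : Ax A J) (π : hA.grp) (x : N) : A (hA.code π) x (π • x) :=
  π.2.choose_spec x

lemma eq_iff (hA : Ax A J) (π : hA.grp) (x y : N) : π • x = y ↔ A (hA.code π) x y := by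
  constructor
  · rintro rfl
    exact hA.code_spec π x
  · intro h
    exact hA.fn _ _ _ _ (hA.code_spec π x) h

lemma inv_eq_iff (hA : Ax A J) (π : hA.grp) (x y : N) : π⁻¹ • x = y ↔ A (hA.code π) y x := by
  rw [inv_smul_eq_iff, eq_comm, eq_iff]

lemma exists_of (hA : Ax A J) {g x y : N} (h : A g x y) :
    ∃ π : hA.grp, hA.code π = g ∧ π • x = y := by
  obtain ⟨π, hπ⟩ := hA.exists_perm g x y h
  let p : hA.grp := ⟨π, g, hπ⟩
  have h1 : p • x = y := hA.fn g x _ _ (hπ x) h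
  exact ⟨p, hA.free _ _ _ _ (hA.code_spec p x) (hπ x), h1⟩

lemma mem_orbit_iff (hA : Ax A J) (x y : N) :
    y ∈ MulAction.orbit hA.grp x ↔ ∃ g, A g x y := by
  constructor
  · rintro ⟨π, rfl⟩
    exact ⟨_, hA.code_spec π x⟩
  · rintro ⟨g, hg⟩
    obtain ⟨π, -, hπ⟩ := hA.exists_of hg
    exact ⟨π, hπ⟩

lemma ext_of_eq (hA : Ax A J) {π ρ : hA.grp} (x : N) (h : π • x = ρ • x) : π = ρ := by
  have h1 := hA.code_spec π x
  have h2 := hA.code_spec ρ x
  rw [h] at h1
  have h3 := hA.free _ _ _ _ h1 h2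
  apply Subtype.ext
  apply Equiv.ext
  intro z
  have h4 := hA.code_spec π z
  have h5 := hA.code_spec ρ z
  rw [h3] at h4
  exact hA.fn _ _ _ _ h4 h5

lemma chain_pow (hA : Ax A J) (ρ : hA.grp) (n : ℕ) (x y : N)
    (h : chain A n (hA.code ρ) x y) : ρ ^ n • x = y := by
  induction n generalizing y with
  | zero =>
    simpa [chain] using h
  | succ n ih =>
    obtain ⟨z, hz, hzy⟩ := h
    rw [pow_succ', mul_smul, ih z hz, hA.eq_iff]
    exact hzy

lemma divisible (hA : Ax A J) (n : ℕ) (hn : 0 < n) (π : hA.grp) : ∃ ρ : hA.grp, ρ ^ n = π := by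
  obtain ⟨x⟩ := ‹Nonempty N›
  obtain ⟨h, hh⟩ := hA.div n hn _ _ _ (hA.code_spec π x)
  have hcode : ∃ ρ : hA.grp, hA.code ρ = h := by
    obtain ⟨n, rfl⟩ : ∃ m, n = m + 1 := ⟨n - 1, by omega⟩
    obtain ⟨z, -, hz⟩ := hh
    obtain ⟨ρ, hρ, -⟩ := hA.exists_of hz
    exact ⟨ρ, hρ⟩
  obtain ⟨ρ, rfl⟩ := hcode
  exact ⟨ρ, hA.ext_of_eq x (hA.chain_pow ρ n x _ hh)⟩

lemma eq_top (hA : Ax A J) (H : Subgroup hA.grp) (hH : H.FiniteIndex) : H = ⊤ := by
  rw [eq_top_iff]
  intro π _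
  obtain ⟨ρ, rfl⟩ := hA.divisible _ (Nat.factorial_pos H.index) π
  obtain ⟨m, hm0, hm, hmem⟩ := Subgroup.exists_pow_mem_of_index_ne_zero hH.index_ne_zero ρ
  obtain ⟨q, hq⟩ := Nat.dvd_factorial hm0 hm
  rw [hq, pow_mul]
  exact H.pow_mem hmem q

lemma exists_seq (hA : Ax A J) : ∃ c : ℕ → N, ∀ i i', i ≠ i' →
    Disjoint (MulAction.orbit hA.grp (c i)) (MulAction.orbit hA.grp (c i')) := by
  classical
  have hstep : ∀ s : Finset N, ∃ y, ∀ x ∈ s, ¬ ∃ g, A g x y := by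
    intro s
    obtain ⟨y, hy⟩ := hA.inf s.card (fun i => (s.equivFin.symm i : N))
    refine ⟨y, fun x hx => ?_⟩
    have := hy (s.equivFin ⟨x, hx⟩)
    simpa using this
  obtain ⟨c, hc⟩ := exists_seq_of_forall_finset_exists (fun _ : N => True)
    (fun x y => ¬ ∃ g, A g x y) (fun s _ => by
      obtain ⟨y, hy⟩ := hstep s
      exact ⟨y, trivial, hy⟩)
  refine ⟨c, ?_⟩
  have key : ∀ i i', i < i' →
      Disjoint (MulAction.orbit hA.grp (c i)) (MulAction.orbit hA.grp (c i')) := by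
    intro i i' hii
    rw [Set.disjoint_left]
    intro z hz hz'
    apply hc.2 i i' hii
    rw [← hA.mem_orbit_iff]
    rw [MulAction.mem_orbit_symm] at hz'
    rw [← MulAction.orbit_eq_iff.mpr hz]
    exact hz'
  intro i i' hii
  rcases lt_or_gt_of_ne hii with h | h
  · exact key i i' h
  · exact (key i' i h).symm

end Ax

end Pool.Agent.H74.CO
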