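import Mathlib

/-!
# VC-minimal theories, convexly orderable theories, reducts
-/

set_option autoImplicit false

namespace Pool.Agent.H74.CO

open Set FirstOrder FirstOrder.Language

universe u v u' v' w

/-- The instance `φ(M; b)` of a formula `φ(x; y₁, …, yₙ)`; the variable `0` plays the role of `x`,
the variables `1, …, n` those of the parameters. -/
def inst {L : FirstOrder.Language.{u, v}} (M : Type w) [L.Structure M] {n : ℕ}
    (φ : L.Formula (Fin (n + 1))) (b : Fin n → M) : Set M :=
  {a | φ.Realize (Fin.cons a b : Fin (n + 1) → M)}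

/-- The family of all instances in `M` of the formulas of `Φ`. -/
def instances {L : FirstOrder.Language.{u, v}} (Φ : Set (Σ n : ℕ, L.Formula (Fin (n + 1)))) (M : Type w)
    [L.Structure M] : Set (Set M) :=
  {A | ∃ φ ∈ Φ, ∃ b : Fin φ.1 → M, A = inst M φ.2 b}

/-- Independence dimension at most one: no two distinct members are independent. -/
def IndepDimLeOne {X : Type w} (𝒜 : Set (Set X)) : Prop :=
  ∀ A ∈ 𝒜, ∀ B ∈ 𝒜, A ≠ B →
    ¬ ((A ∩ B).Nonempty ∧ (A ∩ Bᶜ).Nonempty ∧ (Aᶜ ∩ B).Nonempty ∧ (Aᶜ ∩ Bᶜ).Nonempty)

/-- The Boolean combinations of (finitely many) members of a family of subsets of `X`. -/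
inductive BoolComb {X : Type w} (𝒜 : Set (Set X)) : Set X → Prop
  | basic (A : Set X) : A ∈ 𝒜 → BoolComb 𝒜 A
  | univ : BoolComb 𝒜 Set.univ
  | compl (A : Set X) : BoolComb 𝒜 A → BoolComb 𝒜 Aᶜ
  | inter (A B : Set X) : BoolComb 𝒜 A → BoolComb 𝒜 B → BoolComb 𝒜 (A ∩ B)

/-- `T` is VC-minimal: for some set `Φ` of formulas `φ(x; y)`, in every model of `T` the family of
all instances of `Φ` has independence dimension at most one, and every formula `ψ(x; c)` with
parameters is equivalent to a Boolean combination of instances of `Φ`. -/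
def IsVCMinimal {L : FirstOrder.Language.{u, v}} (T : L.Theory) : Prop :=
  ∃ Φ : Set (Σ n : ℕ, L.Formula (Fin (n + 1))),
    ∀ (M : Type (max u v)) [L.Structure M] [Nonempty M], M ⊨ T →
      IndepDimLeOne (instances Φ M) ∧
      ∀ (n : ℕ) (ψ : L.Formula (Fin (n + 1))) (c : Fin n → M),
        BoolComb (instances Φ M) (inst M ψ c)

/-- `M` is convexly orderable: it carries a linear order such that for every formula `φ(x; y)`
there is `K` such that every instance of `φ` is a union of at most `K` convex sets. -/
def ConvexlyOrderable (L : FirstOrder.Language.{u, v}) (M : Type w) [L.Structure M] : Prop :=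
  ∃ _ : LinearOrder M, ∀ (n : ℕ) (φ : L.Formula (Fin (n + 1))), ∃ K : ℕ, ∀ b : Fin n → M,
    ∃ C : Fin K → Set M, (∀ i, (C i).OrdConnected) ∧ inst M φ b = ⋃ i, C i

/-- `T` is convexly orderable: all its models are. -/
def IsConvexlyOrderable {L : FirstOrder.Language.{u, v}} (T : L.Theory) : Prop :=
  ∀ (M : Type (max u v)) [L.Structure M] [Nonempty M], M ⊨ T → ConvexlyOrderable L M

/-- `T` is a reduct of `T'`: in some model of `T'` the symbols of `L` can be interpreted by
relations (graphs of functions) which are definable without parameters, so that a model of `T`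
results. -/
def IsReduct {L : FirstOrder.Language.{u', v'}} {L' : FirstOrder.Language.{u, v}} (T : L.Theory) (T' : L'.Theory) :
    Prop :=
  ∃ (M : Type (max u v)) (_ : Nonempty M) (_ : L.Structure M) (_ : L'.Structure M),
    M ⊨ T ∧ M ⊨ T' ∧
    (∀ (n : ℕ) (R : L.Relations n),
      (∅ : Set M).Definable L' {x : Fin n → M | Structure.RelMap R x}) ∧
    (∀ (n : ℕ) (f : L.Functions n),
      (∅ : Set M).Definable L' {x : Fin (n + 1) → M |
        Structure.funMap f (fun i : Fin n => x i.succ) = x 0})

end Pool.Agent.H74.CO
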