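import Pool.Agent.H74.CO.QE2
import Pool.Agent.H74.CO.Defs

/-!
# The model is convexly orderable
-/

set_option autoImplicit false

namespace Pool.Agent.H74.CO

open Set FirstOrder FirstOrder.Language

/-- Rotation of one class. -/
noncomputable def rot (u : ℕ) (hu : u ≠ 0) (t : Circ) : M0 ≃[LT] M0 where
  toFun x := if x.1 = u then (x.1, x.2 + t) else x
  invFun x := if x.1 = u then (x.1, x.2 - t) else x
  left_inv x := by
    by_cases h : x.1 = u
    · simp only [h, if_true, add_sub_cancel_right]
      exact Prod.ext h.symm rfl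
    · simp [h]
  right_inv x := by
    by_cases h : x.1 = u
    · simp only [h, if_true, sub_add_cancel]
      exact Prod.ext h.symm rfl
    · simp [h]
  map_fun' f := f.elim
  map_rel' := by
    intro n r x
    cases r with
    | act =>
      change act0 _ _ _ ↔ act0 _ _ _
      simp only [act0, Function.comp]
      by_cases h0 : (x 0).1 = 0
      · have h0' : (x 0).1 ≠ u := by rw [h0]; exact hu.symm
        rw [if_neg h0']
        by_cases h1 : (x 1).1 = u
        · by_cases h2 : (x 2).1 = u
          · rw [if_pos h1, if_pos h2]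
            simp only [h0, h1, h2, true_and]
            rw [← add_assoc, add_left_inj]
          · rw [if_pos h1, if_neg h2]
            have h3 : (x 1).1 ≠ (x 2).1 := by rw [h1]; exact fun h => h2 h.symm
            simp [h3]
        · by_cases h2 : (x 2).1 = u
          · rw [if_neg h1, if_pos h2]
            have h3 : (x 1).1 ≠ (x 2).1 := by rw [h2]; exact h1
            simp [h3]
          · rw [if_neg h1, if_neg h2]
      · by_cases h0' : (x 0).1 = u
        · rw [if_pos h0']
          simp [h0]
        · rw [if_neg h0']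
          simp [h0]
    | half =>
      change half0 _ _ ↔ half0 _ _
      simp only [half0, Function.comp]
      by_cases h1 : (x 0).1 = u
      · by_cases h2 : (x 1).1 = u
        · rw [if_pos h1, if_pos h2]
          simp only [add_sub_add_right_eq_sub]
        · rw [if_pos h1, if_neg h2]
          have h3 : (x 0).1 ≠ (x 1).1 := by rw [h1]; exact fun h => h2 h.symm
          simp [h3]
      · by_cases h2 : (x 1).1 = u
        · rw [if_neg h1, if_pos h2]
          have h3 : (x 0).1 ≠ (x 1).1 := by rw [h2]; exact h1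
          simp [h3]
        · rw [if_neg h1, if_neg h2]

lemma rot_apply_of_ne {u : ℕ} (hu : u ≠ 0) (t : Circ) {x : M0} (h : x.1 ≠ u) :
    rot u hu t x = x := if_neg h

lemma rot_apply_self {u : ℕ} (hu : u ≠ 0) (t : Circ) {x : M0} (h : x.1 = u) :
    rot u hu t x = (x.1, x.2 + t) := if_pos h

/-- The lexicographic key. -/
noncomputable def lexKey (x : M0) : ℕ ×ₗ ℚ := toLex (x.1, coord x.2)

lemma lexKey_inj : Function.Injective lexKey := by
  intro x y h
  have h1 : (x.1, coord x.2) = (y.1, coord y.2) := toLex.injective h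
  exact Prod.ext (congrArg (fun p : ℕ × ℚ => p.1) h1)
    (coord_inj (congrArg (fun p : ℕ × ℚ => p.2) h1))

/-- The lexicographic order. -/
@[instance_reducible] noncomputable def lexOrder : LinearOrder M0 := LinearOrder.lift' lexKey lexKey_inj

lemma lex_le_iff (x y : M0) : lexOrder.le x y ↔ x.1 < y.1 ∨ x.1 = y.1 ∧ coord x.2 ≤ coord y.2 := by
  change lexKey x ≤ lexKey y ↔ _
  rw [lexKey, lexKey, Prod.Lex.toLex_le_toLex]

/-- The touched classes. -/
def tc {n : ℕ} (b : Fin n → M0) (o : Option (Fin n)) : ℕ := o.elim 0 (fun i => (b i).1)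

open Classical in
/-- The signature of a point relative to parameters and forms. -/
noncomputable def sig {n : ℕ} (F : Set ((Fin (n + 1) → ℚ) × ℚ)) (b : Fin n → M0) (x : M0) :
    (Option (Fin n) → SignType) × (F → SignType) :=
  (fun o => SignType.sign ((x.1 : ℤ) - tc b o),
    fun f => if ∃ o, x.1 = tc b o then
      SignType.sign (ev f.1 (co (Fin.cons x b : Fin (n + 1) → M0))) else 0)

lemma sig_first {n : ℕ} {F : Set ((Fin (n + 1) → ℚ) × ℚ)} {b : Fin n → M0} {x y : M0}
    (h : sig F b x = sig F b y) (o : Option (Fin n)) :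
    x.1 = tc b o ↔ y.1 = tc b o := by
  have h1 := congrFun (congrArg Prod.fst h) o
  simp only [sig] at h1
  constructor
  · intro hx
    rw [hx, sub_self, sign_zero] at h1
    have := sign_eq_zero_iff.mp h1.symm
    omega
  · intro hy
    rw [hy, sub_self, sign_zero] at h1
    have := sign_eq_zero_iff.mp h1
    omega

lemma sig_decides {n : ℕ} (φ : LT.Formula (Fin (n + 1))) (F : Set ((Fin (n + 1) → ℚ) × ℚ))
    (hφ : ∀ v v' : Fin (n + 1) → M0, PatEq v v' → SignEq F (co v) (co v') →
      (φ.Realize v ↔ φ.Realize v')) (b : Fin n → M0) (x y : M0) (h : sig F b x = sig F b y) :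
    x ∈ inst M0 φ b ↔ y ∈ inst M0 φ b := by
  classical
  have hfirst := sig_first h
  by_cases ht : ∃ o, x.1 = tc b o
  · obtain ⟨o, ho⟩ := ht
    have hxy : x.1 = y.1 := ho.trans ((hfirst o).mp ho).symm
    refine hφ _ _ ?_ ?_
    · have hc : ∀ i : Fin (n + 1), ((Fin.cons x b : Fin (n + 1) → M0) i).1 =
          ((Fin.cons y b : Fin (n + 1) → M0) i).1 := by
        intro i
        refine Fin.cases ?_ (fun i => ?_) i
        · exact hxy
        · rfl
      exact ⟨fun i j => by rw [hc i, hc j], fun i => by rw [hc i]⟩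
    · intro f hf
      have h2 := congrFun (congrArg Prod.snd h) ⟨f, hf⟩
      simp only [sig] at h2
      rw [if_pos ⟨o, ho⟩, if_pos ⟨o, (hfirst o).mp ho⟩] at h2
      exact h2
  · push Not at ht
    have hy : ∀ o, y.1 ≠ tc b o := fun o ho => ht o ((hfirst o).mpr ho)
    have hy0 : y.1 ≠ 0 := hy none
    have h1 := StrongHomClass.realize_formula (rot y.1 hy0 (x.2 - y.2)) φ
      (v := (Fin.cons y b : Fin (n + 1) → M0))
    have h2 : (rot y.1 hy0 (x.2 - y.2)) ∘ (Fin.cons y b : Fin (n + 1) → M0) =
        (Fin.cons (y.1, x.2) b : Fin (n + 1) → M0) := by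
      funext i
      refine Fin.cases ?_ (fun i => ?_) i
      · simp only [Function.comp, Fin.cons_zero]
        rw [rot_apply_self hy0 _ rfl]
        rw [add_sub_cancel]
      · simp only [Function.comp, Fin.cons_succ]
        exact rot_apply_of_ne hy0 _ (fun h => hy (some i) h.symm)
    change φ.Realize _ ↔ φ.Realize _
    rw [← h1, h2]
    refine hφ _ _ ?_ ?_
    · constructor
      · intro i j
        refine Fin.cases ?_ (fun i => ?_) i <;> refine Fin.cases ?_ (fun j => ?_) j
        · simp
        · simp only [Fin.cons_zero, Fin.cons_succ]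
          exact ⟨fun h => absurd h (ht (some j)), fun h => absurd h (hy (some j))⟩
        · simp only [Fin.cons_zero, Fin.cons_succ]
          exact ⟨fun h => absurd h.symm (ht (some i)), fun h => absurd h.symm (hy (some i))⟩
        · simp
      · intro i
        refine Fin.cases ?_ (fun i => ?_) i
        · simp only [Fin.cons_zero]
          exact ⟨fun h => absurd h (ht none), fun h => absurd h (hy none)⟩
        · simp
    · have h3 : co (Fin.cons x b : Fin (n + 1) → M0) =
          co (Fin.cons (y.1, x.2) b : Fin (n + 1) → M0) := by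
        funext i
        refine Fin.cases ?_ (fun i => ?_) i <;> rfl
      rw [h3]
      exact fun f _ => rfl

lemma sign_between {α : Type*} [Zero α] [LinearOrder α] {a b c : α} (h1 : a ≤ b) (h2 : b ≤ c)
    (h : SignType.sign a = SignType.sign c) : SignType.sign b = SignType.sign a := by
  apply le_antisymm
  · rw [h]; exact SignType.sign.monotone h2
  · exact SignType.sign.monotone h1

lemma sig_convex {n : ℕ} (F : Set ((Fin (n + 1) → ℚ) × ℚ)) (b : Fin n → M0) (x y z : M0)
    (h : sig F b x = sig F b y) (hxz : lexOrder.le x z) (hzy : lexOrder.le z y) :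
    sig F b z = sig F b x := by
  classical
  have hfirst := sig_first h
  rw [lex_le_iff] at hxz hzy
  have h1 : x.1 ≤ z.1 := by omega
  have h2 : z.1 ≤ y.1 := by omega
  have hfst : ∀ o, SignType.sign ((z.1 : ℤ) - tc b o) = SignType.sign ((x.1 : ℤ) - tc b o) := by
    intro o
    have h3 := congrFun (congrArg Prod.fst h) o
    simp only [sig] at h3
    exact sign_between (by omega) (by omega) h3
  refine Prod.ext (funext hfst) (funext fun f => ?_)
  simp only [sig]
  by_cases ht : ∃ o, x.1 = tc b o
  · obtain ⟨o, ho⟩ := ht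
    have hyo := (hfirst o).mp ho
    have hzx : z.1 = x.1 := by omega
    have hzo : z.1 = tc b o := hzx.trans ho
    rw [if_pos ⟨o, hzo⟩, if_pos ⟨o, ho⟩]
    have h3 := congrFun (congrArg Prod.snd h) f
    simp only [sig] at h3
    rw [if_pos ⟨o, ho⟩, if_pos ⟨o, hyo⟩] at h3
    have hc1 : coord x.2 ≤ coord z.2 := by
      rcases hxz with h' | h'
      · omega
      · exact h'.2
    have hc2 : coord z.2 ≤ coord y.2 := by
      rcases hzy with h' | h'
      · omega
      · exact h'.2
    have hev : ∀ w : M0, ev f.1 (co (Fin.cons w b : Fin (n + 1) → M0)) =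
        f.1.1 0 * coord w.2 + (∑ i : Fin n, f.1.1 i.succ * coord (b i).2 + f.1.2) := by
      intro w
      simp only [ev, Fin.sum_univ_succ, co, Fin.cons_zero, Fin.cons_succ]
      ring
    rw [hev, hev] at h3
    rw [hev, hev]
    rcases le_total 0 (f.1.1 0) with h0 | h0
    · exact sign_between (by nlinarith) (by nlinarith) h3
    · rw [h3]
      exact sign_between (by nlinarith) (by nlinarith) h3.symm
  · have hz : ¬ ∃ o, z.1 = tc b o := by
      rintro ⟨o, ho⟩
      apply ht
      refine ⟨o, ?_⟩
      have h3 := hfst o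
      rw [ho, sub_self, sign_zero] at h3
      have := sign_eq_zero_iff.mp h3.symm
      omega
    rw [if_neg ht, if_neg hz]

/-- The model is convexly orderable. -/
theorem convexlyOrderable_M0 : ConvexlyOrderable LT M0 := by
  classical
  refine ⟨lexOrder, fun n φ => ?_⟩
  obtain ⟨F, hF, hφ⟩ := (semi_formula (α := Fin (n + 1)) φ).relabel
    (Sum.elim id (fun i : Fin 0 => i.elim0) : Fin (n + 1) ⊕ Fin 0 → Fin (n + 1))
  have hφ' : ∀ v v' : Fin (n + 1) → M0, PatEq v v' → SignEq F (co v) (co v') →
      (φ.Realize v ↔ φ.Realize v') := by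
    intro v v' h1 h2
    have h3 := hφ v v' h1 h2
    have h4 : ∀ v : Fin (n + 1) → M0, (BoundedFormula.Realize φ
        ((v ∘ (Sum.elim id (fun i : Fin 0 => i.elim0) : Fin (n + 1) ⊕ Fin 0 → Fin (n + 1))) ∘
          Sum.inl)
        ((v ∘ (Sum.elim id (fun i : Fin 0 => i.elim0) : Fin (n + 1) ⊕ Fin 0 → Fin (n + 1))) ∘
          Sum.inr)) ↔ φ.Realize v := by
      intro v
      rw [Formula.Realize]
      apply iff_of_eq
      congr 1
      exact Subsingleton.elim _ _
    exact ((h4 v).symm.trans h3).trans (h4 v')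
  have := hF.fintype
  let Sg := (Option (Fin n) → SignType) × (F → SignType)
  obtain ⟨K, ⟨e⟩⟩ := Finite.exists_equiv_fin Sg
  refine ⟨K, fun b => ?_⟩
  refine ⟨fun i => {x | sig F b x = e.symm i ∧ x ∈ inst M0 φ b}, ?_, ?_⟩
  · intro i
    refine @Set.OrdConnected.mk M0 lexOrder.toPreorder _ ?_
    rintro x ⟨hx1, hx2⟩ y ⟨hy1, hy2⟩ z ⟨hz1, hz2⟩
    have h1 := sig_convex F b x y z (hx1.trans hy1.symm) hz1 hz2
    exact ⟨h1.trans hx1, (sig_decides φ F hφ' b z x h1).mpr hx2⟩
  · ext x
    simp only [Set.mem_iUnion, Set.mem_ofPred_eq]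
    constructor
    · intro hx
      exact ⟨e (sig F b x), by simp, hx⟩
    · rintro ⟨i, -, hx⟩
      exact hx

end Pool.Agent.H74.CO
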