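import Mathlib

/-!
# Counting atoms of laminar families
-/

set_option autoImplicit false

namespace Pool.Agent.H74.CO

open Set

universe u

/-- `X` is determined by the family `B` (membership in `X` only depends on the membership in the
sets `B i`). -/
def Det {N : Type*} {ι : Type*} (B : ι → Set N) (X : Set N) : Prop :=
  ∀ x y, (∀ i, x ∈ B i ↔ y ∈ B i) → (x ∈ X ↔ y ∈ X)

/-- Any two members are comparable or disjoint. -/
def Laminar {N : Type*} (F : Set (Set N)) : Prop :=
  ∀ A ∈ F, ∀ B ∈ F, A ⊆ B ∨ B ⊆ A ∨ Disjoint A B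

/-- `X` is a Boolean combination of `k` members of `F`. -/
def Tame {N : Type*} (F : Set (Set N)) (k : ℕ) (X : Set N) : Prop :=
  ∃ B : Fin k → Set N, (∀ i, B i ∈ F) ∧ Det B X

/-- The membership vector. -/
def vec {N : Type*} {ι : Type*} (B : ι → Set N) (x : N) : Set ι := {i | x ∈ B i}

lemma vec_eq_iff {N : Type*} {ι : Type*} (B : ι → Set N) (x y : N) :
    vec B x = vec B y ↔ ∀ i, x ∈ B i ↔ y ∈ B i := by
  simp only [vec, Set.ext_iff, Set.mem_ofPred_eq]

lemma range_vec_subset {N : Type*} {ι : Type*} [Finite ι] {F : Set (Set N)} (hF : Laminar F)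
    (B : ι → Set N) (hB : ∀ i, B i ∈ F) :
    Set.range (vec B) ⊆ Set.range (fun o : Option ι => o.elim ∅ fun i => {j | B i ⊆ B j}) := by
  rintro _ ⟨x, rfl⟩
  by_cases h : (vec B x) = ∅
  · exact ⟨none, by simp [h]⟩
  · have hne : (vec B x).Nonempty := Set.nonempty_iff_ne_empty.mpr h
    obtain ⟨i, hi, hmin⟩ := Set.Finite.exists_minimalFor (fun i => B i) (vec B x)
      (Set.toFinite _) hne
    refine ⟨some i, ?_⟩
    ext j
    simp only [Option.elim_some, Set.mem_ofPred_eq]
    constructor
    · intro hij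
      exact hij hi
    · intro hj
      rcases hF _ (hB i) _ (hB j) with h1 | h1 | h1
      · exact h1
      · exact hmin hj h1
      · exact absurd hj (Set.disjoint_left.mp h1 hi)

lemma ncard_range_vec {N : Type*} {ι : Type*} [Finite ι] {F : Set (Set N)} (hF : Laminar F)
    (B : ι → Set N) (hB : ∀ i, B i ∈ F) :
    (Set.range (vec B)).ncard ≤ Nat.card ι + 1 := by
  classical
  have := Fintype.ofFinite ι
  calc (Set.range (vec B)).ncard
      ≤ (Set.range (fun o : Option ι => o.elim (∅ : Set ι) fun i => {j | B i ⊆ B j})).ncard :=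
        Set.ncard_le_ncard (range_vec_subset hF B hB) (Set.toFinite _)
    _ ≤ Nat.card (Option ι) := by
        rw [← Set.image_univ]
        refine (Set.ncard_image_le (Set.toFinite _)).trans ?_
        rw [Set.ncard_univ]
    _ = Nat.card ι + 1 := by
        simp [Nat.card_eq_fintype_card, Fintype.card_option]

/-- The counting lemma: `n` pairwise disjoint sets and `n` sets which are pairwise distinct on each
of them cannot be too simple. -/
lemma pattern_bound {N : Type*} {F : Set (Set N)} (hF : Laminar F) (k k' n : ℕ)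
    (hn : 2 ^ (k + k' + 1) < n) (C X : Fin n → Set N)
    (hC : ∀ i, Tame F k' (C i)) (hX : ∀ i, Tame F k (X i))
    (hdisj : ∀ i i', i ≠ i' → Disjoint (C i) (C i'))
    (hdist : ∀ i j j', j ≠ j' → X j ∩ C i ≠ X j' ∩ C i) : False := by
  classical
  choose B hBF hBdet using hX
  choose B' hBF' hBdet' using hC
  let BB : (Fin n × Fin k) ⊕ (Fin n × Fin k') → Set N :=
    Sum.elim (fun p => B p.1 p.2) (fun p => B' p.1 p.2)
  have hBB : ∀ i, BB i ∈ F := by
    rintro (p | p)
    · exact hBF p.1 p.2
    · exact hBF' p.1 p.2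
  have hcard := ncard_range_vec hF BB hBB
  have hdetX : ∀ j, Det BB (X j) := by
    intro j x y hxy
    exact hBdet j x y (fun i => hxy (Sum.inl (j, i)))
  have hdetC : ∀ j, Det BB (C j) := by
    intro j x y hxy
    exact hBdet' j x y (fun i => hxy (Sum.inr (j, i)))
  let R : Fin n → Set (Set ((Fin n × Fin k) ⊕ (Fin n × Fin k'))) := fun i => vec BB '' (C i)
  have hRsub : ∀ i, R i ⊆ Set.range (vec BB) := fun i => Set.image_subset_range _ _
  have hRdisj : ∀ i i', i ≠ i' → Disjoint (R i) (R i') := by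
    intro i i' hii
    rw [Set.disjoint_left]
    rintro _ ⟨x, hx, rfl⟩ ⟨y, hy, hxy⟩
    have h1 := (hdetC i' y x ((vec_eq_iff BB y x).mp hxy)).mp hy
    exact Set.disjoint_left.mp (hdisj i i' hii) hx h1
  have hRcard : ∀ i, k + k' + 2 ≤ (R i).ncard := by
    intro i
    by_contra hlt
    have hlt' : (R i).ncard ≤ k + k' + 1 := by omega
    have hinj : Function.Injective (fun j : Fin n => vec BB '' (X j ∩ C i)) := by
      intro j j' hjj
      by_contra hne
      apply hdist i j j' hne
      have key : ∀ j j' : Fin n, vec BB '' (X j ∩ C i) = vec BB '' (X j' ∩ C i) →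
          X j ∩ C i ⊆ X j' ∩ C i := by
        intro j j' h x hx
        have : vec BB x ∈ vec BB '' (X j' ∩ C i) := by
          rw [← h]; exact ⟨x, hx, rfl⟩
        obtain ⟨y, hy, hxy⟩ := this
        exact ⟨(hdetX j' y x ((vec_eq_iff BB y x).mp hxy)).mp hy.1, hx.2⟩
      exact Set.Subset.antisymm (key j j' hjj) (key j' j hjj.symm)
    have hle : n ≤ 2 ^ (R i).ncard := by
      have hmem : ∀ j : Fin n, vec BB '' (X j ∩ C i) ∈ 𝒫 (R i) := by
        intro j
        exact Set.image_mono Set.inter_subset_right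
      have hfin : (𝒫 (R i)).Finite := Set.toFinite _
      have h1 : (Set.range (fun j : Fin n => vec BB '' (X j ∩ C i))).ncard ≤ (𝒫 (R i)).ncard := by
        apply Set.ncard_le_ncard _ hfin
        rintro _ ⟨j, rfl⟩
        exact hmem j
      have h2 : (Set.range (fun j : Fin n => vec BB '' (X j ∩ C i))).ncard = n := by
        rw [← Set.image_univ, Set.ncard_image_of_injective _ hinj, Set.ncard_univ]
        simp
      rw [h2, Set.ncard_powerset _ (Set.toFinite _)] at h1
      exact h1
    have : 2 ^ (R i).ncard ≤ 2 ^ (k + k' + 1) := Nat.pow_le_pow_right (by norm_num) hlt'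
    omega
  have hsum : ∑ i : Fin n, (R i).ncard ≤ (Set.range (vec BB)).ncard := by
    have h1 : (⋃ i, R i).ncard = ∑ᶠ i : Fin n, (R i).ncard :=
      Set.ncard_iUnion_of_finite (fun i => Set.toFinite _) (fun i j hij => hRdisj i j hij)
    rw [← finsum_eq_sum_of_fintype, ← h1]
    apply Set.ncard_le_ncard _ (Set.toFinite _)
    intro r hr
    obtain ⟨i, hi⟩ := Set.mem_iUnion.mp hr
    exact hRsub i hi
  have hsum2 : n * (k + k' + 2) ≤ ∑ i : Fin n, (R i).ncard := by
    calc n * (k + k' + 2) = ∑ _i : Fin n, (k + k' + 2) := by simp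
      _ ≤ ∑ i : Fin n, (R i).ncard := Finset.sum_le_sum (fun i _ => hRcard i)
  have hcard2 : Nat.card ((Fin n × Fin k) ⊕ (Fin n × Fin k')) = n * k + n * k' := by
    simp
  rw [hcard2] at hcard
  have hnpos : 0 < n := lt_of_le_of_lt (Nat.zero_le _) hn
  nlinarith [hsum, hsum2, hcard, hnpos]

end Pool.Agent.H74.CO
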