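import Pool.Agent.H74.CO.Negative
import Pool.Agent.H74.CO.Convex
import Pool.Agent.H74.CO.AllModels

/-!
# A convexly orderable theory which is not a reduct of a VC-minimal theory
-/

set_option autoImplicit false

namespace Pool.Agent.H74.CO

open FirstOrder FirstOrder.Language

universe u v

theorem main : ∃ (L : FirstOrder.Language.{0, 0}) (T : L.Theory),
    T.IsComplete ∧ IsConvexlyOrderable T ∧
      ∀ (L' : FirstOrder.Language.{u, v}) (T' : L'.Theory), IsVCMinimal T' → ¬ IsReduct T T' := by
  refine ⟨LT, LT.completeTheory M0, completeTheory.isComplete LT M0, ?_, ?_⟩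
  · intro M _ _ hM
    have : M ⊨ LT.completeTheory M0 := hM
    exact convexlyOrderable_of_model M0 convexlyOrderable_M0 M
  · intro L' T' hT'
    exact not_reduct T' hT'

end Pool.Agent.H74.CO
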