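import Pool.Agent.H74.CO.Core

/-!
# Group actions and laminar families
-/

set_option autoImplicit false

namespace Pool.Agent.H74.CO

open Set Pointwise

universe u v

variable {G : Type v} [Group G]

/-- Elements which are separated modulo finitely many proper subgroups of a group without proper
subgroups of finite index. -/
lemma exists_separated (hG : ∀ H : Subgroup G, H.FiniteIndex → H = ⊤) {m : ℕ}
    (H : Fin m → Subgroup G) (hH : ∀ i, H i ≠ ⊤) (n : ℕ) :
    ∃ h : Fin n → G, ∀ i j j', j ≠ j' → (h j')⁻¹ * h j ∉ H i := by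
  classical
  induction n with
  | zero => exact ⟨fun i => i.elim0, fun i j => j.elim0⟩
  | succ n ih =>
    obtain ⟨h, hh⟩ := ih
    have hcov : ⋃ p ∈ (Finset.univ : Finset (Fin m × Fin n)), h p.2 • (H p.1 : Set G)
        ≠ Set.univ := by
      intro hc
      obtain ⟨p, -, hp⟩ := Subgroup.exists_finiteIndex_of_leftCoset_cover hc
      exact hH p.1 (hG _ hp)
    obtain ⟨g, hg⟩ := (Set.ne_univ_iff_exists_notMem _).mp hcov
    have hg' : ∀ i j, (h j)⁻¹ * g ∉ H i := by
      intro i j hmem
      apply hg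
      simp only [Finset.mem_univ, Set.iUnion_true, Set.mem_iUnion]
      exact ⟨(i, j), by
        rw [Set.mem_smul_set_iff_inv_smul_mem]
        exact hmem⟩
    refine ⟨Fin.snoc h g, ?_⟩
    intro i j j' hjj
    induction j using Fin.lastCases with
    | last =>
      induction j' using Fin.lastCases with
      | last => exact absurd rfl hjj
      | cast j' =>
        simp only [Fin.snoc_last, Fin.snoc_castSucc]
        exact hg' i j'
    | cast j =>
      induction j' using Fin.lastCases with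
      | last =>
        simp only [Fin.snoc_last, Fin.snoc_castSucc]
        intro hmem
        apply hg' i j
        have := (H i).inv_mem hmem
        simpa using this
      | cast j' =>
        simp only [Fin.snoc_castSucc]
        exact hh i j j' (fun e => hjj (by rw [e]))

variable {N : Type u} [MulAction G N]

/-- The setwise stabilizer of the trace of `D` on an orbit. -/
def stabOn (D : Set N) (c : N) : Subgroup G where
  carrier := {g | ∀ x ∈ MulAction.orbit G c, (x ∈ D ↔ g • x ∈ D)}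
  one_mem' := by intro x _; simp
  mul_mem' := by
    intro a b ha hb x hx
    rw [hb x hx, mul_smul]
    exact ha _ (MulAction.mem_orbit_of_mem_orbit b hx)
  inv_mem' := by
    intro a ha x hx
    have := ha (a⁻¹ • x) (MulAction.mem_orbit_of_mem_orbit a⁻¹ hx)
    rw [smul_inv_smul] at this
    exact this.symm

lemma claimA (hG : ∀ H : Subgroup G, H.FiniteIndex → H = ⊤) {F : Set (Set N)} (hF : Laminar F)
    (k k' : ℕ) (D : Set N) (hD : ∀ g : G, Tame F k {x | g⁻¹ • x ∈ D})
    (hO : ∀ c : N, Tame F k' (MulAction.orbit G c)) (n : ℕ) (hn : 2 ^ (k + k' + 1) < n)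
    (c : Fin n → N)
    (hc : ∀ i i', i ≠ i' → Disjoint (MulAction.orbit G (c i)) (MulAction.orbit G (c i'))) :
    ∃ i, (∀ x ∈ MulAction.orbit G (c i), x ∈ D) ∨ (∀ x ∈ MulAction.orbit G (c i), x ∉ D) := by
  by_contra hcon
  push Not at hcon
  have hne : ∀ i, stabOn (G := G) D (c i) ≠ ⊤ := by
    intro i htop
    obtain ⟨⟨x, hx, hxD⟩, ⟨y, hy, hyD⟩⟩ := hcon i
    have hxy : x ∈ MulAction.orbit G y := by
      rw [MulAction.orbit_eq_iff.mpr hy]
      exact hx
    obtain ⟨g, hg⟩ := hxy
    have hgm : g ∈ stabOn (G := G) D (c i) := by rw [htop]; trivial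
    have := (hgm y hy).mp hyD
    apply hxD
    have hg' : g • y = x := hg
    rw [← hg']
    exact this
  obtain ⟨h, hh⟩ := exists_separated hG (fun i => stabOn (G := G) D (c i)) hne n
  refine pattern_bound hF k k' n hn (fun i => MulAction.orbit G (c i))
    (fun j => {x | (h j)⁻¹ • x ∈ D}) (fun i => hO _) (fun j => hD _) hc ?_
  intro i j j' hjj heq
  apply hh i j j' hjj
  intro x hx
  have hx' : h j • x ∈ MulAction.orbit G (c i) :=
    MulAction.mem_orbit_of_mem_orbit (h j) hx
  have h1 := Set.ext_iff.mp heq (h j • x)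
  simp only [Set.mem_inter_iff, Set.mem_ofPred_eq, hx', and_true, inv_smul_smul] at h1
  rw [h1, mul_smul]


/-- `B` cuts the orbit of `c` into two nonempty parts. -/
def Proper (G : Type v) [Group G] {N : Type u} [MulAction G N] (c : N) (B : Set N) : Prop :=
  (∃ x ∈ MulAction.orbit G c, x ∈ B) ∧ ∃ x ∈ MulAction.orbit G c, x ∉ B

/-- `X` is covered by one ball of each kind, only proper balls being used. -/
def Cov (G : Type v) [Group G] {N : Type u} [MulAction G N] {k : ℕ}
    (FF : Fin k → Set (Set N)) (c : N) (X : Set N) : Prop :=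
  ∃ B : Fin k → Set N, (∀ j, B j ∈ FF j) ∧ ∀ x ∈ X, ∃ j, Proper G c (B j) ∧ x ∈ B j

/-- `x` and `y` are in a common proper ball. -/
def Sim (G : Type v) [Group G] {N : Type u} [MulAction G N] {k : ℕ}
    (FF : Fin k → Set (Set N)) (x y : N) : Prop :=
  ∃ j, ∃ B ∈ FF j, Proper G x B ∧ x ∈ B ∧ y ∈ B

lemma Proper.congr {c c' : N} {B : Set N} (h : MulAction.orbit G c = MulAction.orbit G c') :
    Proper G c B ↔ Proper G c' B := by
  simp only [Proper, h]

lemma Cov.congr {k : ℕ} {FF : Fin k → Set (Set N)} {c c' : N} {X : Set N}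
    (h : MulAction.orbit G c = MulAction.orbit G c') :
    Cov G FF c X ↔ Cov G FF c' X := by
  simp only [Cov, Proper, h]

/-- The main contradiction. -/
theorem core (hG : ∀ H : Subgroup G, H.FiniteIndex → H = ⊤) {F : Set (Set N)}
    (hF : Laminar F) {k : ℕ} (FF : Fin k → Set (Set N)) (hFF : ∀ j, FF j ⊆ F)
    (J : N → Set N) (τ : G) (hJ1 : ∀ x, J x ⊆ MulAction.orbit G x)
    (hJ2 : ∀ x, ∀ y ∈ MulAction.orbit G x, (y ∈ J (τ • x) ↔ y ∉ J x))
    (hJB : ∀ x, ∃ B : Fin k → Set N, (∀ j, B j ∈ FF j) ∧ Det B (J x))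
    (k1 : ℕ) (hD : ∀ g : G, Tame F k1
      {x | g⁻¹ • x ∈ {x | Cov G FF x (MulAction.orbit G x \ J x)}})
    (k2 : ℕ) (hY : ∀ h g : G, Tame F k2 {x | g⁻¹ • x ∈ {x | Sim G FF x (h • x)}})
    (k3 : ℕ) (hO : ∀ c : N, Tame F k3 (MulAction.orbit G c))
    (hinf : ∃ c : ℕ → N, ∀ i i', i ≠ i' →
      Disjoint (MulAction.orbit G (c i)) (MulAction.orbit G (c i'))) : False := by
  classical
  -- every `J x` is small or co-small
  have hsmall : ∀ x, Cov G FF x (J x) ∨ Cov G FF x (MulAction.orbit G x \ J x) := by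
    intro x
    obtain ⟨B, hB, hdet⟩ := hJB x
    by_contra hcon
    push Not at hcon
    obtain ⟨h1, h2⟩ := hcon
    unfold Cov at h1 h2
    push Not at h1 h2
    obtain ⟨y, hy, hyB⟩ := h1 B hB
    obtain ⟨z, hz, hzB⟩ := h2 B hB
    have hyO := hJ1 x hy
    have hzO := hz.1
    apply hz.2
    refine (hdet y z ?_).mp hy
    intro j
    by_cases hp : Proper G x (B j)
    · exact ⟨fun h => absurd h (hyB j hp), fun h => absurd h (hzB j hp)⟩
    · unfold Proper at hp
      push Not at hp
      constructor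
      · intro h
        exact hp ⟨y, hyO, h⟩ z hzO
      · intro h
        exact hp ⟨z, hzO, h⟩ y hyO
  have horb : ∀ (g : G) (x : N), MulAction.orbit G (g • x) = MulAction.orbit G x :=
    fun g x => MulAction.orbit_smul g x
  have hJτ : ∀ x, J (τ • x) = MulAction.orbit G x \ J x := by
    intro x
    ext y
    constructor
    · intro hy
      have hyO : y ∈ MulAction.orbit G x := by
        have := hJ1 _ hy
        rwa [horb] at this
      exact ⟨hyO, (hJ2 x y hyO).mp hy⟩
    · rintro ⟨hyO, hy⟩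
      exact (hJ2 x y hyO).mpr hy
  -- the type β orbits
  have hbeta : ∀ c, ((∀ x ∈ MulAction.orbit G c, x ∈ {x | Cov G FF x (MulAction.orbit G x \ J x)}) ∨
      (∀ x ∈ MulAction.orbit G c, x ∉ {x | Cov G FF x (MulAction.orbit G x \ J x)})) →
      Cov G FF c (J c) ∧ Cov G FF c (MulAction.orbit G c \ J c) := by
    intro c hc
    have hτ : (τ • c) ∈ {x | Cov G FF x (MulAction.orbit G x \ J x)} ↔ Cov G FF c (J c) := by
      rw [Set.mem_ofPred_eq, horb, hJτ, Cov.congr (horb τ c)]
      have : MulAction.orbit G c \ (MulAction.orbit G c \ J c) = J c := by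
        rw [Set.sdiff_sdiff_right_self]
        exact Set.inter_eq_self_of_subset_right (hJ1 c)
      rw [this]
    rcases hc with hc | hc
    · exact ⟨hτ.mp (hc _ (MulAction.mem_orbit _ _)), hc c (MulAction.mem_orbit_self c)⟩
    · exfalso
      rcases hsmall c with h | h
      · exact hc _ (MulAction.mem_orbit _ _) (hτ.mpr h)
      · exact hc c (MulAction.mem_orbit_self c) h
  obtain ⟨c, hc⟩ := hinf
  -- infinitely many of the orbits are of type β
  let S : Set ℕ := {i | Cov G FF (c i) (J (c i)) ∧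
    Cov G FF (c i) (MulAction.orbit G (c i) \ J (c i))}
  have hS : S.Infinite := by
    have hfin : (Sᶜ).Finite := by
      by_contra hinf'
      have hinf'' : (Sᶜ).Infinite := hinf'
      let n := 2 ^ (k1 + k3 + 1) + 1
      let e := Set.Infinite.natEmbedding _ hinf''
      obtain ⟨i, hi⟩ := claimA (G := G) hG hF k1 k3 _ hD hO n (Nat.lt_succ_self _)
        (fun i : Fin n => c (e i)) (by
          intro i i' hii
          apply hc
          intro heq
          exact hii (Fin.ext (e.injective (Subtype.ext heq))))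
      exact (e i).2 (hbeta _ hi)
    exact Set.infinite_of_finite_compl hfin
  -- the relation Sim on such an orbit
  have hSref : ∀ c, (Cov G FF c (J c) ∧ Cov G FF c (MulAction.orbit G c \ J c)) →
      ∀ x ∈ MulAction.orbit G c, Sim G FF x x := by
    intro c hcov x hx
    have hxo : MulAction.orbit G x = MulAction.orbit G c := MulAction.orbit_eq_iff.mpr hx
    by_cases hxJ : x ∈ J c
    · obtain ⟨B, hB, hcv⟩ := hcov.1
      obtain ⟨j, hp, hxB⟩ := hcv x hxJ
      exact ⟨j, B j, hB j, (Proper.congr hxo).mpr hp, hxB, hxB⟩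
    · obtain ⟨B, hB, hcv⟩ := hcov.2
      obtain ⟨j, hp, hxB⟩ := hcv x ⟨hx, hxJ⟩
      exact ⟨j, B j, hB j, (Proper.congr hxo).mpr hp, hxB, hxB⟩
  have hSsymm : ∀ x y, y ∈ MulAction.orbit G x → Sim G FF x y → Sim G FF y x := by
    rintro x y hy ⟨j, B, hB, hp, hx, hyB⟩
    exact ⟨j, B, hB, (Proper.congr (MulAction.orbit_eq_iff.mpr hy)).mpr hp, hyB, hx⟩
  have hStrans : ∀ x y z, y ∈ MulAction.orbit G x → Sim G FF x y → Sim G FF y z →
      Sim G FF x z := by
    rintro x y z hy ⟨j, B, hB, hp, hx, hyB⟩ ⟨j', B', hB', hp', hy', hz⟩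
    have hxy := MulAction.orbit_eq_iff.mpr hy
    rcases hF B (hFF j hB) B' (hFF j' hB') with h | h | h
    · exact ⟨j', B', hB', (Proper.congr hxy).mp hp', h hx, hz⟩
    · exact ⟨j, B, hB, hp, hx, h hz⟩
    · exact absurd hy' (Set.disjoint_left.mp h hyB)
  -- at least two classes
  have htwo : ∀ c, (Cov G FF c (J c) ∧ Cov G FF c (MulAction.orbit G c \ J c)) →
      ∃ x ∈ MulAction.orbit G c, ∃ y ∈ MulAction.orbit G c, ¬ Sim G FF x y := by
    intro c hcov
    by_contra hall
    push Not at hall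
    obtain ⟨B1, hB1, hc1⟩ := hcov.1
    obtain ⟨B2, hB2, hc2⟩ := hcov.2
    let BB : Fin k ⊕ Fin k → Set N := Sum.elim B1 B2
    have hBBF : ∀ t, ∃ j, BB t ∈ FF j := by
      rintro (t | t)
      · exact ⟨t, hB1 t⟩
      · exact ⟨t, hB2 t⟩
    have hbig : ∀ T : Finset (Fin k ⊕ Fin k), (∀ t ∈ T, Proper G c (BB t)) →
        ∃ j, ∃ B ∈ FF j, Proper G c B ∧ ∀ t ∈ T, BB t ⊆ B := by
      intro T
      induction T using Finset.induction_on with
      | empty =>
        intro _
        obtain ⟨j, B, hB, hp, -, -⟩ := hall c (MulAction.mem_orbit_self c) c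
          (MulAction.mem_orbit_self c)
        exact ⟨j, B, hB, hp, by simp⟩
      | insert t T ht ih =>
        intro hT
        obtain ⟨j, B, hB, hp, hsub⟩ := ih (fun t' ht' => hT t' (Finset.mem_insert_of_mem ht'))
        have hpt := hT t (Finset.mem_insert_self t T)
        obtain ⟨y, hyO, hyB⟩ := hpt.1
        obtain ⟨x, hxO, hxB⟩ := hp.1
        obtain ⟨j2, B'', hB'', hp'', hx'', hy''⟩ := hall x hxO y hyO
        rw [Proper.congr (MulAction.orbit_eq_iff.mpr hxO)] at hp''
        -- the larger of `B` and `B''`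
        obtain ⟨j3, B3, hB3, hp3, hBB3, hy3⟩ : ∃ j3, ∃ B3 ∈ FF j3, Proper G c B3 ∧ B ⊆ B3 ∧
            y ∈ B3 := by
          rcases hF B (hFF j hB) B'' (hFF j2 hB'') with h | h | h
          · exact ⟨j2, B'', hB'', hp'', h, hy''⟩
          · exact ⟨j, B, hB, hp, Subset.rfl, h hy''⟩
          · exact absurd hx'' (Set.disjoint_left.mp h hxB)
        obtain ⟨jt, hjt⟩ := hBBF t
        rcases hF B3 (hFF j3 hB3) (BB t) (hFF jt hjt) with h | h | h
        · refine ⟨jt, BB t, hjt, hpt, ?_⟩
          intro t' ht'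
          rcases Finset.mem_insert.mp ht' with rfl | ht'
          · exact Subset.rfl
          · exact (hsub t' ht').trans (hBB3.trans h)
        · refine ⟨j3, B3, hB3, hp3, ?_⟩
          intro t' ht'
          rcases Finset.mem_insert.mp ht' with rfl | ht'
          · exact h
          · exact (hsub t' ht').trans hBB3
        · exact absurd hyB (Set.disjoint_left.mp h hy3)
    obtain ⟨j, B, hB, hp, hsub⟩ := hbig (Finset.univ.filter fun t => Proper G c (BB t))
      (fun t ht => (Finset.mem_filter.mp ht).2)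
    obtain ⟨z, hzO, hzB⟩ := hp.2
    apply hzB
    by_cases hzJ : z ∈ J c
    · obtain ⟨t, hpt, hzt⟩ := hc1 z hzJ
      exact hsub (Sum.inl t) (Finset.mem_filter.mpr ⟨Finset.mem_univ _, hpt⟩) hzt
    · obtain ⟨t, hpt, hzt⟩ := hc2 z ⟨hzO, hzJ⟩
      exact hsub (Sum.inr t) (Finset.mem_filter.mpr ⟨Finset.mem_univ _, hpt⟩) hzt
  -- at most `2k` classes
  have hfew : ∀ c, (Cov G FF c (J c) ∧ Cov G FF c (MulAction.orbit G c \ J c)) →
      ∀ f : Fin (2 * k + 1) → N, (∀ j, f j ∈ MulAction.orbit G c) →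
        ∃ j j', j ≠ j' ∧ Sim G FF (f j) (f j') := by
    intro c hcov f hf
    obtain ⟨B1, hB1, hc1⟩ := hcov.1
    obtain ⟨B2, hB2, hc2⟩ := hcov.2
    let BB : Fin k ⊕ Fin k → Set N := Sum.elim B1 B2
    have hBBF : ∀ t, ∃ j, BB t ∈ FF j := by
      rintro (t | t)
      · exact ⟨t, hB1 t⟩
      · exact ⟨t, hB2 t⟩
    have hex : ∀ j, ∃ t, Proper G c (BB t) ∧ f j ∈ BB t := by
      intro j
      by_cases hzJ : f j ∈ J c
      · obtain ⟨t, hpt, hzt⟩ := hc1 _ hzJ
        exact ⟨Sum.inl t, hpt, hzt⟩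
      · obtain ⟨t, hpt, hzt⟩ := hc2 _ ⟨hf j, hzJ⟩
        exact ⟨Sum.inr t, hpt, hzt⟩
    choose t ht using hex
    obtain ⟨j, j', hjj, htt⟩ := Fintype.exists_ne_map_eq_of_card_lt t (by simp; omega)
    refine ⟨j, j', hjj, ?_⟩
    obtain ⟨i, hi⟩ := hBBF (t j)
    exact ⟨i, BB (t j), hi, (Proper.congr (MulAction.orbit_eq_iff.mpr (hf j))).mpr (ht j).1,
      (ht j).2, by rw [htt]; exact (ht j').2⟩
  -- choose many orbits of type β
  let n1 := 2 ^ (k2 + k3 + 1) + 1
  let m := (2 * k + 1) * (2 * k + 1) * n1 + 1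
  let e := Set.Infinite.natEmbedding _ hS
  have he : ∀ i : ℕ, (Cov G FF (c (e i)) (J (c (e i))) ∧
    Cov G FF (c (e i)) (MulAction.orbit G (c (e i)) \ J (c (e i)))) := fun i => (e i).2
  let H : Fin m → Subgroup G := fun i =>
    { carrier := {g | ∀ x ∈ MulAction.orbit G (c (e i)), Sim G FF x (g • x)}
      one_mem' := by
        intro x hx
        rw [one_smul]
        exact hSref _ (he i) x hx
      mul_mem' := by
        intro a b ha hb x hx
        rw [mul_smul]
        exact hStrans x (b • x) _ (MulAction.mem_orbit _ _) (hb x hx)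
          (ha _ (MulAction.mem_orbit_of_mem_orbit b hx))
      inv_mem' := by
        intro a ha x hx
        have h1 := ha (a⁻¹ • x) (MulAction.mem_orbit_of_mem_orbit a⁻¹ hx)
        rw [smul_inv_smul] at h1
        refine hSsymm (a⁻¹ • x) x ?_ h1
        rw [MulAction.orbit_smul]
        exact MulAction.mem_orbit_self x }
  have hHtop : ∀ i, H i ≠ ⊤ := by
    intro i htop
    obtain ⟨x, hx, y, hy, hxy⟩ := htwo _ (he i)
    apply hxy
    have : y ∈ MulAction.orbit G x := by
      rw [MulAction.orbit_eq_iff.mpr hx]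
      exact hy
    obtain ⟨g, hg⟩ := this
    have hgm : g ∈ H i := by rw [htop]; trivial
    have h1 := hgm x hx
    have hg' : g • x = y := hg
    rwa [hg'] at h1
  obtain ⟨h, hh⟩ := exists_separated hG H hHtop (2 * k + 1)
  -- for each orbit a pair of indices
  have hpair : ∀ i : Fin m, ∃ p : Fin (2 * k + 1) × Fin (2 * k + 1),
      (∃ y ∈ MulAction.orbit G (c (e i)), y ∈ {x | Sim G FF x (((h p.2)⁻¹ * h p.1) • x)}) ∧
      (∃ y ∈ MulAction.orbit G (c (e i)), y ∉ {x | Sim G FF x (((h p.2)⁻¹ * h p.1) • x)}) := by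
    intro i
    obtain ⟨j, j', hjj, hs⟩ := hfew _ (he i) (fun j => (h j)⁻¹ • c (e i))
      (fun j => MulAction.mem_orbit _ _)
    refine ⟨(j, j'), ⟨(h j)⁻¹ • c (e i), MulAction.mem_orbit _ _, ?_⟩, ?_⟩
    · simp only [Set.mem_ofPred_eq, mul_smul, smul_inv_smul]
      exact hs
    · by_contra hcon
      push Not at hcon
      exact hh i j j' hjj hcon
  choose p hp using hpair
  obtain ⟨q, hq⟩ := Fintype.exists_lt_card_fiber_of_mul_lt_card (f := p) (n := n1) (by
    simp only [Fintype.card_prod, Fintype.card_fin]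
    exact Nat.lt_succ_self _)
  obtain ⟨T, hTsub, hTcard⟩ := Finset.exists_subset_card_eq hq.le
  let o := T.orderEmbOfFin hTcard
  have ho : ∀ i, p (o i) = q := by
    intro i
    have := hTsub (Finset.orderEmbOfFin_mem T hTcard i)
    exact (Finset.mem_filter.mp this).2
  obtain ⟨i, hi⟩ := claimA (G := G) hG hF k2 k3 {x | Sim G FF x (((h q.2)⁻¹ * h q.1) • x)}
    (fun g => hY _ g) hO n1 (Nat.lt_succ_self _) (fun i : Fin n1 => c (e (o i))) (by
      intro i i' hii
      apply hc
      intro heq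
      apply hii
      apply o.injective
      apply Fin.ext
      exact e.injective (Subtype.ext heq))
  have h1 := hp (o i)
  rw [ho i] at h1
  obtain ⟨⟨y, hy, hy1⟩, ⟨z, hz, hz1⟩⟩ := h1
  rcases hi with hi | hi
  · exact hz1 (hi z hz)
  · exact hi y hy hy1

end Pool.Agent.H74.CO
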