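import Mathlib

/-!
# Pairs of predicates defined by one formula
-/

set_option autoImplicit false

namespace Pool.Agent.H74.CO

open Set FirstOrder FirstOrder.Language

universe u v w w'

/-- One formula defines `P` in `M` and `Q` in `N`. -/
def Tr (L : FirstOrder.Language.{u, v}) {M : Type w} {N : Type w'} [L.Structure M] [L.Structure N]
    {α : Type} (P : (α → M) → Prop) (Q : (α → N) → Prop) : Prop :=
  ∃ φ : L.Formula α, (∀ v, φ.Realize v ↔ P v) ∧ (∀ v, φ.Realize v ↔ Q v)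

namespace Tr

variable {L : FirstOrder.Language.{u, v}} {M : Type w} {N : Type w'} [L.Structure M]
  [L.Structure N] {α β : Type} {P P' : (α → M) → Prop} {Q Q' : (α → N) → Prop}

lemma congr (h : Tr L P Q) (hP : ∀ v, P v ↔ P' v) (hQ : ∀ v, Q v ↔ Q' v) : Tr L P' Q' := by
  obtain ⟨φ, h1, h2⟩ := h
  exact ⟨φ, fun v => (h1 v).trans (hP v), fun v => (h2 v).trans (hQ v)⟩

lemma not (h : Tr L P Q) : Tr L (fun v => ¬ P v) (fun v => ¬ Q v) := by
  obtain ⟨φ, h1, h2⟩ := h
  exact ⟨φ.not, fun v => by rw [Formula.realize_not, h1], fun v => by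
    rw [Formula.realize_not, h2]⟩

lemma and (h : Tr L P Q) (h' : Tr L P' Q') :
    Tr L (fun v => P v ∧ P' v) (fun v => Q v ∧ Q' v) := by
  obtain ⟨φ, h1, h2⟩ := h
  obtain ⟨φ', h1', h2'⟩ := h'
  exact ⟨φ ⊓ φ', fun v => by rw [Formula.realize_inf, h1, h1'], fun v => by
    rw [Formula.realize_inf, h2, h2']⟩

lemma or (h : Tr L P Q) (h' : Tr L P' Q') :
    Tr L (fun v => P v ∨ P' v) (fun v => Q v ∨ Q' v) := by
  obtain ⟨φ, h1, h2⟩ := h
  obtain ⟨φ', h1', h2'⟩ := h'
  exact ⟨φ ⊔ φ', fun v => by rw [Formula.realize_sup, h1, h1'], fun v => by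
    rw [Formula.realize_sup, h2, h2']⟩

lemma imp (h : Tr L P Q) (h' : Tr L P' Q') :
    Tr L (fun v => P v → P' v) (fun v => Q v → Q' v) := by
  obtain ⟨φ, h1, h2⟩ := h
  obtain ⟨φ', h1', h2'⟩ := h'
  exact ⟨φ.imp φ', fun v => by rw [Formula.realize_imp, h1, h1'], fun v => by
    rw [Formula.realize_imp, h2, h2']⟩

lemma iff (h : Tr L P Q) (h' : Tr L P' Q') :
    Tr L (fun v => P v ↔ P' v) (fun v => Q v ↔ Q' v) := by
  obtain ⟨φ, h1, h2⟩ := h
  obtain ⟨φ', h1', h2'⟩ := h'
  exact ⟨Formula.iff φ φ', fun v => by rw [Formula.realize_iff, h1, h1'], fun v => by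
    rw [Formula.realize_iff, h2, h2']⟩

lemma relabel (f : α → β) (h : Tr L P Q) :
    Tr L (fun v : β → M => P (v ∘ f)) (fun v : β → N => Q (v ∘ f)) := by
  obtain ⟨φ, h1, h2⟩ := h
  exact ⟨φ.relabel f, fun v => by rw [Formula.realize_relabel, h1], fun v => by
    rw [Formula.realize_relabel, h2]⟩

lemma eq (a b : α) : Tr L (fun v : α → M => v a = v b) (fun v : α → N => v a = v b) :=
  ⟨(Term.var a).equal (Term.var b), fun v => by simp [Formula.realize_equal], fun v => by
    simp [Formula.realize_equal]⟩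

lemma exT [Finite β] {R : (α → M) → (β → M) → Prop} {S : (α → N) → (β → N) → Prop}
    (h : Tr L (fun w : α ⊕ β → M => R (w ∘ Sum.inl) (w ∘ Sum.inr))
      (fun w : α ⊕ β → N => S (w ∘ Sum.inl) (w ∘ Sum.inr))) :
    Tr L (fun v => ∃ z, R v z) (fun v => ∃ z, S v z) := by
  obtain ⟨φ, h1, h2⟩ := h
  refine ⟨φ.iExs β, fun v => ?_, fun v => ?_⟩
  · rw [Formula.realize_iExs]
    simp only [h1, Sum.elim_comp_inl, Sum.elim_comp_inr]
  · rw [Formula.realize_iExs]
    simp only [h2, Sum.elim_comp_inl, Sum.elim_comp_inr]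

lemma allT [Finite β] {R : (α → M) → (β → M) → Prop} {S : (α → N) → (β → N) → Prop}
    (h : Tr L (fun w : α ⊕ β → M => R (w ∘ Sum.inl) (w ∘ Sum.inr))
      (fun w : α ⊕ β → N => S (w ∘ Sum.inl) (w ∘ Sum.inr))) :
    Tr L (fun v => ∀ z, R v z) (fun v => ∀ z, S v z) := by
  obtain ⟨φ, h1, h2⟩ := h
  refine ⟨φ.iAlls β, fun v => ?_, fun v => ?_⟩
  · rw [Formula.realize_iAlls]
    simp only [h1, Sum.elim_comp_inl, Sum.elim_comp_inr]
  · rw [Formula.realize_iAlls]
    simp only [h2, Sum.elim_comp_inl, Sum.elim_comp_inr]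

lemma ex {R : (α → M) → M → Prop} {S : (α → N) → N → Prop}
    (h : Tr L (fun w : Option α → M => R (fun a => w (some a)) (w none))
      (fun w : Option α → N => S (fun a => w (some a)) (w none))) :
    Tr L (fun v => ∃ x, R v x) (fun v => ∃ x, S v x) := by
  have h' := h.relabel (fun o : Option α => (o.elim (Sum.inr ()) Sum.inl : α ⊕ Unit))
  have h'' := exT (L := L) (α := α) (β := Unit) (R := fun v z => R v (z ()))
    (S := fun v z => S v (z ())) (h'.congr (fun v => Iff.rfl) (fun v => Iff.rfl))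
  refine h''.congr (fun v => ?_) (fun v => ?_)
  · exact ⟨fun ⟨z, hz⟩ => ⟨z (), hz⟩, fun ⟨x, hx⟩ => ⟨fun _ => x, hx⟩⟩
  · exact ⟨fun ⟨z, hz⟩ => ⟨z (), hz⟩, fun ⟨x, hx⟩ => ⟨fun _ => x, hx⟩⟩

lemma all {R : (α → M) → M → Prop} {S : (α → N) → N → Prop}
    (h : Tr L (fun w : Option α → M => R (fun a => w (some a)) (w none))
      (fun w : Option α → N => S (fun a => w (some a)) (w none))) :
    Tr L (fun v => ∀ x, R v x) (fun v => ∀ x, S v x) := by
  have h' := h.relabel (fun o : Option α => (o.elim (Sum.inr ()) Sum.inl : α ⊕ Unit))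
  have h'' := allT (L := L) (α := α) (β := Unit) (R := fun v z => R v (z ()))
    (S := fun v z => S v (z ())) (h'.congr (fun v => Iff.rfl) (fun v => Iff.rfl))
  refine h''.congr (fun v => ?_) (fun v => ?_)
  · exact ⟨fun hz x => hz (fun _ => x), fun hx z => hx (z ())⟩
  · exact ⟨fun hz x => hz (fun _ => x), fun hx z => hx (z ())⟩

lemma exI {ι : Type} [Finite ι] {R : ι → (α → M) → Prop} {S : ι → (α → N) → Prop}
    (h : ∀ i, Tr L (R i) (S i)) :
    Tr L (fun v => ∃ i, R i v) (fun v => ∃ i, S i v) := by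
  choose φ h1 h2 using h
  refine ⟨Formula.iSup φ, fun v => ?_, fun v => ?_⟩
  · rw [Formula.realize_iSup]
    simp only [h1]
  · rw [Formula.realize_iSup]
    simp only [h2]

lemma allI {ι : Type} [Finite ι] {R : ι → (α → M) → Prop} {S : ι → (α → N) → Prop}
    (h : ∀ i, Tr L (R i) (S i)) :
    Tr L (fun v => ∀ i, R i v) (fun v => ∀ i, S i v) := by
  choose φ h1 h2 using h
  refine ⟨Formula.iInf φ, fun v => ?_, fun v => ?_⟩
  · rw [Formula.realize_iInf]
    simp only [h1]
  · rw [Formula.realize_iInf]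
    simp only [h2]

/-- Transfer of a universally quantified statement from `M` to a model of its complete theory. -/
lemma transfer [Finite α] [Nonempty N] [N ⊨ L.completeTheory M] (h : Tr L P Q) (hP : ∀ v, P v) :
    ∀ v, Q v := by
  obtain ⟨φ, h1, h2⟩ := h
  have h3 : M ⊨ ((φ.relabel (Sum.inr : α → Empty ⊕ α)).iAlls α : L.Sentence) := by
    rw [Sentence.Realize, Formula.realize_iAlls]
    intro i
    rw [Formula.realize_relabel, h1]
    exact hP _
  rw [← realize_iff_of_model_completeTheory M N] at h3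
  rw [Sentence.Realize, Formula.realize_iAlls] at h3
  intro v
  have h4 := h3 v
  rw [Formula.realize_relabel, h2] at h4
  exact h4

end Tr

end Pool.Agent.H74.CO
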