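import Pool.Agent.H74.CO.Ax
import Pool.Agent.H74.CO.Tr

/-!
# The structure: the circle group and infinitely many torsors
-/

set_option autoImplicit false

namespace Pool.Agent.H74.CO

open Set FirstOrder FirstOrder.Language

universe w

/-- Relation symbols: the translation action and the half circles. -/
inductive LRel : ℕ → Type
  | act : LRel 3
  | half : LRel 2

/-- The language. -/
def LT : FirstOrder.Language.{0, 0} := ⟨fun _ => Empty, LRel⟩

/-- The symbol of the translation action. -/
def rAct : LT.Relations 3 := LRel.act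

/-- The symbol of the half circles. -/
def rHalf : LT.Relations 2 := LRel.half

/-- The circle group `ℚ/ℤ`. -/
abbrev Circ : Type := AddCircle (1 : ℚ)

/-- The representative in `[0, 1)`. -/
noncomputable def coord (z : Circ) : ℚ := (AddCircle.equivIco (1 : ℚ) 0 z : ℚ)

lemma coord_nonneg (z : Circ) : 0 ≤ coord z := (AddCircle.equivIco (1 : ℚ) 0 z).2.1

lemma coord_lt_one (z : Circ) : coord z < 1 := by
  have h : coord z < 0 + 1 := (AddCircle.equivIco (1 : ℚ) 0 z).2.2
  linarith

lemma coe_coord (z : Circ) : ((coord z : ℚ) : Circ) = z := AddCircle.coe_equivIco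

lemma coord_eq {z : Circ} {q : ℚ} (h0 : 0 ≤ q) (h1 : q < 1) (h : (q : Circ) = z) :
    coord z = q := by
  subst h
  have hq : q ∈ Ico (0 : ℚ) (0 + 1) := ⟨h0, by linarith⟩
  unfold coord
  rw [AddCircle.equivIco_coe_eq hq]

lemma coord_inj {z z' : Circ} (h : coord z = coord z') : z = z' := by
  rw [← coe_coord z, h, coe_coord]

lemma coe_one : ((1 : ℚ) : Circ) = 0 := AddCircle.coe_period 1

lemma coord_add_of_lt {a b : Circ} (h : coord a + coord b < 1) :
    coord (a + b) = coord a + coord b := by
  apply coord_eq (add_nonneg (coord_nonneg a) (coord_nonneg b)) h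
  rw [AddCircle.coe_add, coe_coord, coe_coord]

lemma coord_add_of_ge {a b : Circ} (h : 1 ≤ coord a + coord b) :
    coord (a + b) = coord a + coord b - 1 := by
  apply coord_eq (by linarith) (by linarith [coord_lt_one a, coord_lt_one b])
  rw [AddCircle.coe_sub, AddCircle.coe_add, coe_coord, coe_coord, coe_one, sub_zero]

lemma coord_sub_of_ge {a b : Circ} (h : 0 ≤ coord a - coord b) :
    coord (a - b) = coord a - coord b := by
  apply coord_eq h (by linarith [coord_lt_one a, coord_nonneg b])
  rw [AddCircle.coe_sub, coe_coord, coe_coord]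

lemma coord_sub_of_lt {a b : Circ} (h : coord a - coord b < 0) :
    coord (a - b) = coord a - coord b + 1 := by
  apply coord_eq (by linarith [coord_nonneg a, coord_lt_one b]) (by linarith)
  rw [AddCircle.coe_add, AddCircle.coe_sub, coe_coord, coe_coord, coe_one, add_zero]

lemma eq_add_iff (a b c : Circ) :
    c = a + b ↔ coord c = coord a + coord b ∨ coord c = coord a + coord b - 1 := by
  constructor
  · rintro rfl
    rcases lt_or_ge (coord a + coord b) 1 with h | h
    · exact Or.inl (coord_add_of_lt h)
    · exact Or.inr (coord_add_of_ge h)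
  · rintro (h | h)
    · rw [← coe_coord c, h, AddCircle.coe_add, coe_coord, coe_coord]
    · rw [← coe_coord c, h, AddCircle.coe_sub, AddCircle.coe_add, coe_coord, coe_coord, coe_one,
        sub_zero]

lemma coord_sub_lt_half_iff (a b : Circ) :
    coord (a - b) < 1 / 2 ↔
      (0 ≤ coord a - coord b ∧ coord a - coord b < 1 / 2) ∨ coord a - coord b < - (1 / 2) := by
  rcases lt_or_ge (coord a - coord b) 0 with h | h
  · rw [coord_sub_of_lt h]
    constructor
    · intro h'
      right; linarith
    · rintro (h' | h')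
      · linarith [h'.1]
      · linarith
  · rw [coord_sub_of_ge h]
    constructor
    · intro h'
      exact Or.inl ⟨h, h'⟩
    · rintro (h' | h')
      · exact h'.2
      · linarith

/-- The universe of the model. -/
abbrev M0 : Type := ℕ × Circ

/-- The translation action in the model: the class `0` is the group itself. -/
def act0 (g x y : M0) : Prop := g.1 = 0 ∧ x.1 = y.1 ∧ y.2 = g.2 + x.2

/-- The half circles in the model. -/
def half0 (x y : M0) : Prop := x.1 = y.1 ∧ coord (y.2 - x.2) < 1 / 2

noncomputable instance : LT.Structure M0 where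
  funMap := fun f => f.elim
  RelMap := fun {n} r => match n, r with
    | _, LRel.act => fun x => act0 (x 0) (x 1) (x 2)
    | _, LRel.half => fun x => half0 (x 0) (x 1)

/-- The relation `act` in a structure. -/
def actR (N : Type w) [LT.Structure N] (g x y : N) : Prop :=
  Structure.RelMap rAct ![g, x, y]

/-- The relation `half` in a structure. -/
def halfR (N : Type w) [LT.Structure N] (x y : N) : Prop :=
  Structure.RelMap rHalf ![x, y]

lemma actR_M0 (g x y : M0) : actR M0 g x y ↔ act0 g x y := Iff.rfl

lemma halfR_M0 (x y : M0) : halfR M0 x y ↔ half0 x y := Iff.rfl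

lemma Tr.act {M : Type w} {N : Type*} [LT.Structure M] [LT.Structure N] {α : Type} (a b c : α) :
    Tr LT (fun v : α → M => actR M (v a) (v b) (v c))
      (fun v : α → N => actR N (v a) (v b) (v c)) := by
  refine ⟨Relations.formula rAct ![Term.var a, Term.var b, Term.var c],
    fun v => ?_, fun v => ?_⟩
  · rw [Formula.realize_rel]
    change _ ↔ Structure.RelMap rAct ![v a, v b, v c]
    apply iff_of_eq
    congr 1
    funext i
    fin_cases i <;> rfl
  · rw [Formula.realize_rel]
    change _ ↔ Structure.RelMap rAct ![v a, v b, v c]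
    apply iff_of_eq
    congr 1
    funext i
    fin_cases i <;> rfl

lemma Tr.half {M : Type w} {N : Type*} [LT.Structure M] [LT.Structure N] {α : Type} (a b : α) :
    Tr LT (fun v : α → M => halfR M (v a) (v b))
      (fun v : α → N => halfR N (v a) (v b)) := by
  refine ⟨Relations.formula rHalf ![Term.var a, Term.var b],
    fun v => ?_, fun v => ?_⟩
  · rw [Formula.realize_rel]
    change _ ↔ Structure.RelMap rHalf ![v a, v b]
    apply iff_of_eq
    congr 1
    funext i
    fin_cases i <;> rfl
  · rw [Formula.realize_rel]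
    change _ ↔ Structure.RelMap rHalf ![v a, v b]
    apply iff_of_eq
    congr 1
    funext i
    fin_cases i <;> rfl

lemma Tr.chain {M : Type w} {N : Type*} [LT.Structure M] [LT.Structure N] {α : Type} (n : ℕ)
    (a b c : α) :
    Tr LT (fun v : α → M => CO.chain (actR M) n (v a) (v b) (v c))
      (fun v : α → N => CO.chain (actR N) n (v a) (v b) (v c)) := by
  induction n generalizing α with
  | zero => exact Tr.eq b c
  | succ n ih =>
    exact Tr.ex (R := fun (v : α → M) z => CO.chain (actR M) n (v a) (v b) z ∧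
        actR M (v a) z (v c))
      (S := fun (v : α → N) z => CO.chain (actR N) n (v a) (v b) z ∧
        actR N (v a) z (v c))
      ((ih (some a) (some b) none).and (Tr.act (some a) none (some c)))

lemma chain_M0 (n : ℕ) (h x y : M0) (hh : h.1 = 0) :
    CO.chain act0 n h x y ↔ x.1 = y.1 ∧ y.2 = n • h.2 + x.2 := by
  induction n generalizing y with
  | zero =>
    simp only [CO.chain, zero_smul, zero_add]
    constructor
    · rintro rfl; exact ⟨rfl, rfl⟩
    · rintro ⟨h1, h2⟩; exact Prod.ext h1 h2.symm
  | succ n ih =>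
    simp only [CO.chain, ih, act0]
    constructor
    · rintro ⟨z, ⟨h1, h2⟩, -, h3, h4⟩
      refine ⟨h1.trans h3, ?_⟩
      rw [h4, h2, succ_nsmul', add_assoc]
    · rintro ⟨h1, h2⟩
      refine ⟨(x.1, n • h.2 + x.2), ⟨rfl, rfl⟩, hh, h1, ?_⟩
      rw [h2, succ_nsmul', add_assoc]

lemma axM0 : Ax (actR M0) (halfR M0) := by
  refine
    { tot := ?_
      fn := ?_
      free := ?_
      compEx := ?_
      comp := ?_
      one := ?_
      inv := ?_
      div := ?_
      inf := ?_
      tau := ?_ }
  · rintro g x y z ⟨h1, -, -⟩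
    exact ⟨(z.1, g.2 + z.2), h1, rfl, rfl⟩
  · rintro g x y y' ⟨-, h2, h3⟩ ⟨-, h2', h3'⟩
    exact Prod.ext (h2.symm.trans h2') (h3.trans h3'.symm)
  · rintro g g' x y ⟨h1, h2, h3⟩ ⟨h1', h2', h3'⟩
    exact Prod.ext (h1.trans h1'.symm) (add_right_cancel (h3.symm.trans h3'))
  · rintro g h x y z ⟨h1, h2, h3⟩ ⟨h1', h2', h3'⟩
    refine ⟨(0, h.2 + g.2), rfl, h2.trans h2', ?_⟩
    change z.2 = (h.2 + g.2) + x.2
    have e1 : y.2 = g.2 + x.2 := h3
    have e2 : z.2 = h.2 + y.2 := h3'
    rw [e2, e1, add_assoc]
  · rintro g h k x y z w w' w'' ⟨a1, a2, a3⟩ ⟨b1, b2, b3⟩ ⟨c1, c2, c3⟩ ⟨d1, d2, d3⟩ ⟨e1, e2, e3⟩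
    refine ⟨c1, d2.trans e2, ?_⟩
    have a3' : y.2 = g.2 + x.2 := a3
    have b3' : z.2 = h.2 + y.2 := b3
    have c3' : z.2 = k.2 + x.2 := c3
    have d3' : w'.2 = g.2 + w.2 := d3
    have e3' : w''.2 = h.2 + w'.2 := e3
    change w''.2 = k.2 + w.2
    have : k.2 = h.2 + g.2 := by
      apply add_right_cancel (b := x.2)
      rw [← c3', b3', a3', add_assoc]
    rw [e3', d3', this, add_assoc]
  · exact ⟨(0, 0), fun x => ⟨rfl, rfl, (zero_add _).symm⟩⟩
  · rintro g x y ⟨h1, h2, h3⟩
    refine ⟨(0, -g.2), rfl, h2.symm, ?_⟩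
    have h3' : y.2 = g.2 + x.2 := h3
    change x.2 = -g.2 + y.2
    rw [h3']
    abel
  · rintro n hn g x y ⟨h1, h2, h3⟩
    refine ⟨(0, ((coord g.2 / n : ℚ) : Circ)), ?_⟩
    have key : n • ((coord g.2 / n : ℚ) : Circ) = g.2 := by
      rw [← AddCircle.coe_nsmul, nsmul_eq_mul, mul_div_cancel₀ _ (by positivity), coe_coord]
    have := (chain_M0 n (0, ((coord g.2 / n : ℚ) : Circ)) x y rfl).mpr ⟨h2, by
      change y.2 = n • ((coord g.2 / n : ℚ) : Circ) + x.2
      rw [key]
      exact h3⟩
    exact this
  · intro n x
    obtain ⟨m, hm⟩ := Infinite.exists_notMem_finset (Finset.univ.image fun i => (x i).1)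
    refine ⟨(m, 0), ?_⟩
    rintro i ⟨g, -, h2, -⟩
    apply hm
    exact Finset.mem_image.mpr ⟨i, Finset.mem_univ _, h2⟩
  · refine ⟨(0, ((1 / 2 : ℚ) : Circ)), ⟨(0, 0), (0, ((1 / 2 : ℚ) : Circ)), rfl, rfl, ?_⟩, ?_⟩
    · exact (add_zero _).symm
    · rintro x x' y ⟨-, h2, h3⟩
      have h3' : x'.2 = ((1 / 2 : ℚ) : Circ) + x.2 := h3
      have h2' : x.1 = x'.1 := h2
      constructor
      · rintro ⟨h4, -⟩
        exact ⟨(0, y.2 - x.2), rfl, h4, (sub_add_cancel _ _).symm⟩
      · rintro ⟨g, -, h4, -⟩
        have h4' : x.1 = y.1 := h4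
        rw [halfR_M0, halfR_M0, half0, half0]
        have hc2 : coord (((1 / 2 : ℚ) : Circ)) = 1 / 2 :=
          coord_eq (by norm_num) (by norm_num) rfl
        have e : y.2 - x'.2 = (y.2 - x.2) - ((1 / 2 : ℚ) : Circ) := by
          rw [h3']; abel
        rw [e, coord_sub_lt_half_iff, hc2]
        have hn := coord_nonneg (y.2 - x.2)
        have hl := coord_lt_one (y.2 - x.2)
        constructor
        · rintro ⟨-, h | h⟩
          · rintro ⟨-, h'⟩
            linarith [h.1]
          · linarith
        · intro h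
          refine ⟨h2'.symm.trans h4', Or.inl ?_⟩
          have : ¬ coord (y.2 - x.2) < 1 / 2 := fun h' => h ⟨h4', h'⟩
          constructor
          · linarith
          · linarith

/-- The axioms hold in all models of the complete theory of the model. -/
lemma axN (N : Type w) [LT.Structure N] [Nonempty N] [N ⊨ LT.completeTheory M0] :
    Ax (actR N) (halfR N) := by
  refine
    { tot := ?_
      fn := ?_
      free := ?_
      compEx := ?_
      comp := ?_
      one := ?_
      inv := ?_
      div := ?_
      inf := ?_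
      tau := ?_ }
  · intro g x y z
    exact Tr.transfer (L := LT) (M := M0) (N := N) (α := Fin 4)
      (P := fun v => actR M0 (v 0) (v 1) (v 2) → ∃ w, actR M0 (v 0) (v 3) w)
      (Q := fun v => actR N (v 0) (v 1) (v 2) → ∃ w, actR N (v 0) (v 3) w)
      ((Tr.act 0 1 2).imp (Tr.ex (R := fun (v : Fin 4 → M0) w => actR M0 (v 0) (v 3) w)
        (S := fun (v : Fin 4 → N) w => actR N (v 0) (v 3) w) (Tr.act (some 0) (some 3) none)))
      (fun v => axM0.tot _ _ _ _) ![g, x, y, z]
  · intro g x y y'
    exact Tr.transfer (L := LT) (M := M0) (N := N) (α := Fin 4)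
      (P := fun v => actR M0 (v 0) (v 1) (v 2) → actR M0 (v 0) (v 1) (v 3) → v 2 = v 3)
      (Q := fun v => actR N (v 0) (v 1) (v 2) → actR N (v 0) (v 1) (v 3) → v 2 = v 3)
      ((Tr.act 0 1 2).imp ((Tr.act 0 1 3).imp (Tr.eq 2 3)))
      (fun v => axM0.fn _ _ _ _) ![g, x, y, y']
  · intro g g' x y
    exact Tr.transfer (L := LT) (M := M0) (N := N) (α := Fin 4)
      (P := fun v => actR M0 (v 0) (v 2) (v 3) → actR M0 (v 1) (v 2) (v 3) → v 0 = v 1)
      (Q := fun v => actR N (v 0) (v 2) (v 3) → actR N (v 1) (v 2) (v 3) → v 0 = v 1)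
      ((Tr.act 0 2 3).imp ((Tr.act 1 2 3).imp (Tr.eq 0 1)))
      (fun v => axM0.free _ _ _ _) ![g, g', x, y]
  · intro g h x y z
    exact Tr.transfer (L := LT) (M := M0) (N := N) (α := Fin 5)
      (P := fun v => actR M0 (v 0) (v 2) (v 3) → actR M0 (v 1) (v 3) (v 4) →
        ∃ k, actR M0 k (v 2) (v 4))
      (Q := fun v => actR N (v 0) (v 2) (v 3) → actR N (v 1) (v 3) (v 4) →
        ∃ k, actR N k (v 2) (v 4))
      ((Tr.act 0 2 3).imp ((Tr.act 1 3 4).imp
        (Tr.ex (R := fun (v : Fin 5 → M0) k => actR M0 k (v 2) (v 4))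
          (S := fun (v : Fin 5 → N) k => actR N k (v 2) (v 4)) (Tr.act none (some 2) (some 4)))))
      (fun v => axM0.compEx _ _ _ _ _) ![g, h, x, y, z]
  · intro g h k x y z w w' w''
    exact Tr.transfer (L := LT) (M := M0) (N := N) (α := Fin 9)
      (P := fun v => actR M0 (v 0) (v 3) (v 4) → actR M0 (v 1) (v 4) (v 5) →
        actR M0 (v 2) (v 3) (v 5) → actR M0 (v 0) (v 6) (v 7) → actR M0 (v 1) (v 7) (v 8) →
        actR M0 (v 2) (v 6) (v 8))
      (Q := fun v => actR N (v 0) (v 3) (v 4) → actR N (v 1) (v 4) (v 5) →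
        actR N (v 2) (v 3) (v 5) → actR N (v 0) (v 6) (v 7) → actR N (v 1) (v 7) (v 8) →
        actR N (v 2) (v 6) (v 8))
      ((Tr.act 0 3 4).imp ((Tr.act 1 4 5).imp ((Tr.act 2 3 5).imp ((Tr.act 0 6 7).imp
        ((Tr.act 1 7 8).imp (Tr.act 2 6 8))))))
      (fun v => axM0.comp _ _ _ _ _ _ _ _ _) ![g, h, k, x, y, z, w, w', w'']
  · exact Tr.transfer (L := LT) (M := M0) (N := N) (α := Fin 0)
      (P := fun _ => ∃ e, ∀ x, actR M0 e x x)
      (Q := fun _ => ∃ e, ∀ x, actR N e x x)
      (Tr.ex (R := fun (_ : Fin 0 → M0) e => ∀ x, actR M0 e x x)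
          (S := fun (_ : Fin 0 → N) e => ∀ x, actR N e x x)
          (Tr.all (R := fun (v : Option (Fin 0) → M0) x => actR M0 (v none) x x)
            (S := fun (v : Option (Fin 0) → N) x => actR N (v none) x x)
            (Tr.act (some none) none none)))
      (fun _ => axM0.one) ![]
  · intro g x y
    exact Tr.transfer (L := LT) (M := M0) (N := N) (α := Fin 3)
      (P := fun v => actR M0 (v 0) (v 1) (v 2) → ∃ h, actR M0 h (v 2) (v 1))
      (Q := fun v => actR N (v 0) (v 1) (v 2) → ∃ h, actR N h (v 2) (v 1))
      ((Tr.act 0 1 2).imp (Tr.ex (R := fun (v : Fin 3 → M0) h => actR M0 h (v 2) (v 1))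
        (S := fun (v : Fin 3 → N) h => actR N h (v 2) (v 1)) (Tr.act none (some 2) (some 1))))
      (fun v => axM0.inv _ _ _) ![g, x, y]
  · intro n hn g x y
    exact Tr.transfer (L := LT) (M := M0) (N := N) (α := Fin 3)
      (P := fun v => actR M0 (v 0) (v 1) (v 2) → ∃ h, CO.chain (actR M0) n h (v 1) (v 2))
      (Q := fun v => actR N (v 0) (v 1) (v 2) → ∃ h, CO.chain (actR N) n h (v 1) (v 2))
      ((Tr.act 0 1 2).imp
        (Tr.ex (R := fun (v : Fin 3 → M0) h => CO.chain (actR M0) n h (v 1) (v 2))
          (S := fun (v : Fin 3 → N) h => CO.chain (actR N) n h (v 1) (v 2))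
          (Tr.chain n none (some 1) (some 2))))
      (fun v => axM0.div n hn _ _ _) ![g, x, y]
  · intro n x
    exact Tr.transfer (L := LT) (M := M0) (N := N) (α := Fin n)
      (P := fun v => ∃ y, ∀ i, ¬ ∃ g, actR M0 g (v i) y)
      (Q := fun v => ∃ y, ∀ i, ¬ ∃ g, actR N g (v i) y)
      (Tr.ex (R := fun (v : Fin n → M0) y => ∀ i, ¬ ∃ g, actR M0 g (v i) y)
          (S := fun (v : Fin n → N) y => ∀ i, ¬ ∃ g, actR N g (v i) y)
        (Tr.allI fun i => Tr.not
          (Tr.ex (R := fun (v : Option (Fin n) → M0) g => actR M0 g (v (some i)) (v none))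
            (S := fun (v : Option (Fin n) → N) g => actR N g (v (some i)) (v none))
            (Tr.act none (some (some i)) (some none)))))
      (fun v => axM0.inf n v) x
  · exact Tr.transfer (L := LT) (M := M0) (N := N) (α := Fin 0)
      (P := fun _ => ∃ t, (∃ x y, actR M0 t x y) ∧ ∀ x x' y, actR M0 t x x' →
        (halfR M0 x y → ∃ g, actR M0 g x y) ∧
          ((∃ g, actR M0 g x y) → (halfR M0 x' y ↔ ¬ halfR M0 x y)))
      (Q := fun _ => ∃ t, (∃ x y, actR N t x y) ∧ ∀ x x' y, actR N t x x' →
        (halfR N x y → ∃ g, actR N g x y) ∧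
          ((∃ g, actR N g x y) → (halfR N x' y ↔ ¬ halfR N x y)))
      (Tr.ex (R := fun (_ : Fin 0 → M0) t => (∃ x y, actR M0 t x y) ∧
          ∀ x x' y, actR M0 t x x' → (halfR M0 x y → ∃ g, actR M0 g x y) ∧
          ((∃ g, actR M0 g x y) → (halfR M0 x' y ↔ ¬ halfR M0 x y)))
        (S := fun (_ : Fin 0 → N) t => (∃ x y, actR N t x y) ∧
          ∀ x x' y, actR N t x x' → (halfR N x y → ∃ g, actR N g x y) ∧
          ((∃ g, actR N g x y) → (halfR N x' y ↔ ¬ halfR N x y)))
        (Tr.and
          (Tr.ex (R := fun (v : Option (Fin 0) → M0) x => ∃ y, actR M0 (v none) x y)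
            (S := fun (v : Option (Fin 0) → N) x => ∃ y, actR N (v none) x y)
            (Tr.ex (R := fun (v : Option (Option (Fin 0)) → M0) y =>
                actR M0 (v (some none)) (v none) y)
              (S := fun (v : Option (Option (Fin 0)) → N) y =>
                actR N (v (some none)) (v none) y)
              (Tr.act (some (some none)) (some none) none)))
          (Tr.all (R := fun (v : Option (Fin 0) → M0) x => ∀ x' y, actR M0 (v none) x x' →
              (halfR M0 x y → ∃ g, actR M0 g x y) ∧
              ((∃ g, actR M0 g x y) → (halfR M0 x' y ↔ ¬ halfR M0 x y)))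
            (S := fun (v : Option (Fin 0) → N) x => ∀ x' y, actR N (v none) x x' →
              (halfR N x y → ∃ g, actR N g x y) ∧
              ((∃ g, actR N g x y) → (halfR N x' y ↔ ¬ halfR N x y)))
            (Tr.all (R := fun (v : Option (Option (Fin 0)) → M0) x' =>
                ∀ y, actR M0 (v (some none)) (v none) x' →
                (halfR M0 (v none) y → ∃ g, actR M0 g (v none) y) ∧
                ((∃ g, actR M0 g (v none) y) → (halfR M0 x' y ↔ ¬ halfR M0 (v none) y)))
              (S := fun (v : Option (Option (Fin 0)) → N) x' =>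
                ∀ y, actR N (v (some none)) (v none) x' →
                (halfR N (v none) y → ∃ g, actR N g (v none) y) ∧
                ((∃ g, actR N g (v none) y) → (halfR N x' y ↔ ¬ halfR N (v none) y)))
              (Tr.all (R := fun (v : Option (Option (Option (Fin 0))) → M0) y =>
                  actR M0 (v (some (some none))) (v (some none)) (v none) →
                  (halfR M0 (v (some none)) y → ∃ g, actR M0 g (v (some none)) y) ∧
                  ((∃ g, actR M0 g (v (some none)) y) →
                    (halfR M0 (v none) y ↔ ¬ halfR M0 (v (some none)) y)))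
                (S := fun (v : Option (Option (Option (Fin 0))) → N) y =>
                  actR N (v (some (some none))) (v (some none)) (v none) →
                  (halfR N (v (some none)) y → ∃ g, actR N g (v (some none)) y) ∧
                  ((∃ g, actR N g (v (some none)) y) →
                    (halfR N (v none) y ↔ ¬ halfR N (v (some none)) y)))
                ((Tr.act (some (some (some none))) (some (some none)) (some none)).imp
                  (Tr.and
                    ((Tr.half (some (some none)) none).imp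
                      (Tr.ex (R := fun (v : Option (Option (Option (Option (Fin 0)))) → M0) g =>
                          actR M0 g (v (some (some none))) (v none))
                        (S := fun (v : Option (Option (Option (Option (Fin 0)))) → N) g =>
                          actR N g (v (some (some none))) (v none))
                        (Tr.act none (some (some (some none))) (some none))))
                    ((Tr.ex (R := fun (v : Option (Option (Option (Option (Fin 0)))) → M0) g =>
                          actR M0 g (v (some (some none))) (v none))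
                        (S := fun (v : Option (Option (Option (Option (Fin 0)))) → N) g =>
                          actR N g (v (some (some none))) (v none))
                        (Tr.act none (some (some (some none))) (some none))).imp
                      ((Tr.half (some none) none).iff
                        (Tr.not (Tr.half (some (some none)) none)))))))))))
      (fun _ => axM0.tau) ![]

end Pool.Agent.H74.CO
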