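import Pool.Agent.H74.CO.Defs
import Pool.Agent.H74.CO.Core

/-!
# Uniform bounds by ultraproducts
-/

set_option autoImplicit false

namespace Pool.Agent.H74.CO

open Set FirstOrder FirstOrder.Language Filter

universe u v w

lemma BoolComb.det {X : Type w} {𝒜 : Set (Set X)} {A : Set X} (h : BoolComb 𝒜 A) :
    ∃ m : ℕ, ∃ B : Fin m → Set X, (∀ i, B i ∈ 𝒜) ∧ Det B A := by
  induction h with
  | basic A hA =>
    refine ⟨1, fun _ => A, fun _ => hA, ?_⟩
    intro x y hxy
    exact hxy 0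
  | univ =>
    refine ⟨0, fun i => i.elim0, fun i => i.elim0, ?_⟩
    intro x y _
    simp
  | compl A _ ih =>
    obtain ⟨m, B, hB, hd⟩ := ih
    refine ⟨m, B, hB, ?_⟩
    intro x y hxy
    simp only [Set.mem_compl_iff, hd x y hxy]
  | inter A A' _ _ ih ih' =>
    obtain ⟨m, B, hB, hd⟩ := ih
    obtain ⟨m', B', hB', hd'⟩ := ih'
    refine ⟨m + m', Fin.append B B', ?_, ?_⟩
    · intro i
      refine Fin.addCases (fun i => ?_) (fun i => ?_) i
      · simpa using hB i
      · simpa using hB' i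
    · intro x y hxy
      have h1 := hd x y (fun i => by simpa using hxy (Fin.castAdd m' i))
      have h2 := hd' x y (fun i => by simpa using hxy (Fin.natAdd m i))
      simp only [Set.mem_inter_iff, h1, h2]

/-- The uniform bound. -/
theorem uniform {L : FirstOrder.Language.{u, v}} (T : L.Theory)
    (Φ : Set (Σ n : ℕ, L.Formula (Fin (n + 1))))
    (hΦ : ∀ (M : Type (max u v)) [L.Structure M] [Nonempty M], M ⊨ T →
      ∀ (n : ℕ) (ψ : L.Formula (Fin (n + 1))) (c : Fin n → M),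
        BoolComb (instances Φ M) (inst M ψ c))
    {n : ℕ} (ψ : L.Formula (Fin (n + 1))) :
    ∃ s : Finset (Φ × ℕ), ∀ (M : Type (max u v)) [L.Structure M] [Nonempty M], M ⊨ T →
      ∀ c : Fin n → M, ∃ z : ℕ → ℕ → M,
        Det (fun p : s => inst M p.1.1.1.2 (fun i => z p.1.2 i)) (inst M ψ c) := by
  classical
  by_contra hcon
  push Not at hcon
  choose M hS hne hT c hc using hcon
  let 𝒰 : Ultrafilter (Finset (Φ × ℕ)) := Ultrafilter.of atTop
  have h𝒰 : ∀ s₀ : Finset (Φ × ℕ), ∀ᶠ s in (𝒰 : Filter (Finset (Φ × ℕ))), s₀ ⊆ s := by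
    intro s₀
    exact (Ultrafilter.of_le atTop) (Filter.mem_atTop s₀)
  let P := (𝒰 : Filter (Finset (Φ × ℕ))).Product M
  have hPT : P ⊨ T := by
    refine ⟨fun {φ} hφ => ?_⟩
    rw [Ultraproduct.sentence_realize]
    exact Filter.Eventually.of_forall (fun s => (hT s).realize_of_mem φ hφ)
  have hPne : Nonempty P := Ultraproduct.Product.instNonempty
  let cs : Fin n → P := fun i => ((fun s => c s i : ∀ s, M s) : P)
  obtain ⟨m, B, hB, hdet⟩ := (hΦ P hPT n ψ cs).det
  -- choose the formulas and the parameters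
  have hB' : ∀ i, ∃ φ : Φ, ∃ b : ℕ → ∀ s, M s,
      B i = inst P φ.1.2 (fun j => ((b j : ∀ s, M s) : P)) := by
    intro i
    obtain ⟨φ, hφ, b, hb⟩ := hB i
    have hrep : ∀ x : P, ∃ f : ∀ s, M s, (f : P) = x := fun x => Quotient.exists_rep x
    choose rep hrep using hrep
    refine ⟨⟨φ, hφ⟩, fun j => if h : j < φ.1 then rep (b ⟨j, h⟩) else
      fun s => Classical.arbitrary _, ?_⟩
    rw [hb]
    congr 1
    funext j
    simp [hrep]
  choose φ b hb using hB'
  let s₀ : Finset (Φ × ℕ) := Finset.univ.image fun i : Fin m => (φ i, (i : ℕ))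
  -- the bad pairs
  have hbad : ∀ s, ∃ x y : M s,
      (∀ p : s, (x ∈ inst (M s) p.1.1.1.2
          (fun i => if h : p.1.2 < m then b ⟨p.1.2, h⟩ i s else Classical.arbitrary _) ↔
        y ∈ inst (M s) p.1.1.1.2
          (fun i => if h : p.1.2 < m then b ⟨p.1.2, h⟩ i s else Classical.arbitrary _))) ∧
      ¬ (x ∈ inst (M s) ψ (c s) ↔ y ∈ inst (M s) ψ (c s)) := by
    intro s
    have := hc s (fun k i => if h : k < m then b ⟨k, h⟩ i s else Classical.arbitrary _)
    unfold Det at this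
    push Not at this
    obtain ⟨x, y, h1, h2⟩ := this
    refine ⟨x, y, h1, ?_⟩
    rcases h2 with h2 | h2
    · exact fun h => h2.2 (h.mp h2.1)
    · exact fun h => h2.1 (h.mpr h2.2)
  choose x y hxy hne' using hbad
  have hcast : ∀ {k : ℕ} (χ : L.Formula (Fin (k + 1))) (a : ∀ s, M s) (d : Fin k → ∀ s, M s),
      ((a : P) ∈ inst P χ (fun j => ((d j : ∀ s, M s) : P))) ↔
        ∀ᶠ s in (𝒰 : Filter (Finset (Φ × ℕ))), a s ∈ inst (M s) χ (fun j => d j s) := by
    intro k χ a d
    have h1 := Ultraproduct.realize_formula_cast (M := M) (u := 𝒰) χ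
      (Fin.cons a d : Fin (k + 1) → ∀ s, M s)
    have e1 : (fun i => (((Fin.cons a d : Fin (k + 1) → ∀ s, M s) i : ∀ s, M s) : P)) =
        (Fin.cons (a : P) (fun j => ((d j : ∀ s, M s) : P)) : Fin (k + 1) → P) := by
      funext i
      refine Fin.cases ?_ (fun i => ?_) i <;> rfl
    have e2 : ∀ s, (fun i => (Fin.cons a d : Fin (k + 1) → ∀ s, M s) i s) =
        (Fin.cons (a s) (fun j => d j s) : Fin (k + 1) → M s) := by
      intro s
      funext i
      refine Fin.cases ?_ (fun i => ?_) i <;> rfl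
    rw [e1] at h1
    simp only [e2] at h1
    exact h1
  have key : ∀ i, ((x : P) ∈ B i ↔ (y : P) ∈ B i) := by
    intro i
    rw [hb i, hcast, hcast]
    apply Filter.eventually_congr
    filter_upwards [h𝒰 s₀] with s hs
    have hmem : (φ i, (i : ℕ)) ∈ s := hs (Finset.mem_image.mpr ⟨i, Finset.mem_univ _, rfl⟩)
    have := hxy s ⟨(φ i, (i : ℕ)), hmem⟩
    simpa using this
  have hfin := (hcast ψ x (fun j s => c s j)).symm.trans
    ((hdet (x : P) (y : P) key).trans (hcast ψ y (fun j s => c s j)))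
  by_cases hx : ∀ᶠ s in (𝒰 : Filter (Finset (Φ × ℕ))), x s ∈ inst (M s) ψ (fun j => c s j)
  · have hy := hfin.mp hx
    obtain ⟨s, h1, h2⟩ := (hx.and hy).exists
    exact hne' s ⟨fun _ => h2, fun _ => h1⟩
  · have hy : ¬ ∀ᶠ s in (𝒰 : Filter (Finset (Φ × ℕ))), y s ∈ inst (M s) ψ (fun j => c s j) :=
      fun h => hx (hfin.mpr h)
    rw [← Ultrafilter.eventually_not] at hx hy
    obtain ⟨s, h1, h2⟩ := (hx.and hy).exists
    exact hne' s ⟨fun h => absurd h h1, fun h => absurd h h2⟩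

end Pool.Agent.H74.CO
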