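import Pool.Agent.H74.CO.Model
import Pool.Agent.H74.CO.Unif
import Pool.Agent.H74.CO.Group

/-!
# No VC-minimal expansion
-/

set_option autoImplicit false

namespace Pool.Agent.H74.CO

open Set FirstOrder FirstOrder.Language

universe u v w

/-- The side of `X` which does not contain `p`. -/
def side {N : Type w} (p : N) (X : Set N) : Set N := {y | ¬ (y ∈ X ↔ p ∈ X)}

/-- The laminar family obtained from the instances of `Φ` and a point `p`. -/
def Lam {L : FirstOrder.Language.{u, v}} (Φ : Set (Σ n : ℕ, L.Formula (Fin (n + 1))))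
    (N : Type w) [L.Structure N] (p : N) : Set (Set N) :=
  {A | ∃ X ∈ instances Φ N, A = side p X}

lemma laminar_Lam {L : FirstOrder.Language.{u, v}} (Φ : Set (Σ n : ℕ, L.Formula (Fin (n + 1))))
    (N : Type w) [L.Structure N] (p : N) (h : IndepDimLeOne (instances Φ N)) :
    Laminar (Lam Φ N p) := by
  classical
  rintro _ ⟨X, hX, rfl⟩ _ ⟨Y, hY, rfl⟩
  by_cases hXY : X = Y
  · subst hXY
    exact Or.inl Subset.rfl
  · have h1 := h X hX Y hY hXY
    by_contra hcon
    push Not at hcon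
    obtain ⟨c1, c2, c3⟩ := hcon
    obtain ⟨a, ha, ha'⟩ := Set.not_subset.mp c1
    obtain ⟨b, hb, hb'⟩ := Set.not_subset.mp c2
    obtain ⟨c, hc, hc'⟩ := Set.not_disjoint_iff.mp c3
    simp only [side, Set.mem_ofPred_eq] at ha ha' hb hb' hc hc'
    apply h1
    by_cases hpX : p ∈ X <;> by_cases hpY : p ∈ Y <;>
      simp only [hpX, hpY, iff_true, iff_false, not_not] at ha ha' hb hb' hc hc'
    · exact ⟨⟨p, hpX, hpY⟩, ⟨b, hb', hb⟩, ⟨a, ha, ha'⟩, ⟨c, hc, hc'⟩⟩
    · exact ⟨⟨b, hb', hb⟩, ⟨p, hpX, hpY⟩, ⟨c, hc, hc'⟩, ⟨a, ha, ha'⟩⟩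
    · exact ⟨⟨a, ha, ha'⟩, ⟨c, hc, hc'⟩, ⟨p, hpX, hpY⟩, ⟨b, hb', hb⟩⟩
    · exact ⟨⟨c, hc, hc'⟩, ⟨a, ha, ha'⟩, ⟨b, hb', hb⟩, ⟨p, hpX, hpY⟩⟩

section

variable {L : FirstOrder.Language.{u, v}} {T : L.Theory}
  {Φ : Set (Σ n : ℕ, L.Formula (Fin (n + 1)))}

lemma tame_of_tr (hΦ : ∀ (M : Type (max u v)) [L.Structure M] [Nonempty M], M ⊨ T →
      ∀ (n : ℕ) (ψ : L.Formula (Fin (n + 1))) (c : Fin n → M),
        BoolComb (instances Φ M) (inst M ψ c))
    (N : Type (max u v)) [L.Structure N] [Nonempty N] (hN : N ⊨ T) (p : N)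
    {α : Type} [Finite α] (P : (Option α → N) → Prop) (hP : Tr L P P) :
    ∃ k, ∀ v : α → N, Tame (Lam Φ N p) k {x | P (fun o => o.elim x v)} := by
  classical
  obtain ⟨φ, hφ, -⟩ := hP
  obtain ⟨n, ⟨e⟩⟩ := Finite.exists_equiv_fin α
  let ψ : L.Formula (Fin (n + 1)) := φ.relabel (fun o : Option α => o.elim 0 fun a => (e a).succ)
  obtain ⟨s, hs⟩ := uniform T Φ hΦ ψ
  refine ⟨s.card, fun v => ?_⟩
  obtain ⟨z, hz⟩ := hs N hN (v ∘ e.symm)
  have hinst : inst N ψ (v ∘ e.symm) = {x | P (fun o => o.elim x v)} := by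
    ext x
    simp only [inst, Set.mem_ofPred_eq, ψ, Formula.realize_relabel, hφ]
    apply iff_of_eq
    congr 1
    funext o
    cases o with
    | none => rfl
    | some a => simp
  refine ⟨fun i => side p (inst N (s.equivFin.symm i).1.1.1.2
    (fun j => z (s.equivFin.symm i).1.2 j)), ?_, ?_⟩
  · intro i
    exact ⟨_, ⟨(s.equivFin.symm i).1.1.1, (s.equivFin.symm i).1.1.2, _, rfl⟩, rfl⟩
  · rw [← hinst]
    intro x y hxy
    apply hz
    intro q
    obtain ⟨i, rfl⟩ := s.equivFin.symm.surjective q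
    have := hxy i
    simp only [side, Set.mem_ofPred_eq] at this
    tauto

end

/-- The complete theory of the model is not a reduct of a VC-minimal theory. -/
theorem not_reduct {L : FirstOrder.Language.{u, v}} (T : L.Theory) (hT : IsVCMinimal T) :
    ¬ IsReduct (LT.completeTheory M0) T := by
  classical
  rintro ⟨N, hne, hS, hS', hN0, hN, hdef, -⟩
  obtain ⟨Φ, hΦ⟩ := hT
  have hBC := fun (M : Type (max u v)) [L.Structure M] [Nonempty M] (hM : M ⊨ T) => (hΦ M hM).2
  have hID := (hΦ N hN).1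
  have hA : Ax (actR N) (halfR N) := axN N
  obtain ⟨p⟩ := hne
  have hne : Nonempty N := ⟨p⟩
  have hLam : Laminar (Lam Φ N p) := laminar_Lam Φ N p hID
  -- the relations are definable
  have tr_act : ∀ {α : Type} (a b c : α), Tr L (fun v : α → N => actR N (v a) (v b) (v c))
      (fun v : α → N => actR N (v a) (v b) (v c)) := by
    intro α a b c
    obtain ⟨φ, hφ⟩ := Set.empty_definable_iff.mp (hdef 3 rAct)
    have h1 : ∀ v : Fin 3 → N, φ.Realize v ↔ actR N (v 0) (v 1) (v 2) := by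
      intro v
      have h2 : v ∈ {x : Fin 3 → N | Structure.RelMap rAct x} ↔ φ.Realize v := by
        rw [hφ]; rfl
      rw [← h2, Set.mem_ofPred_eq]
      change _ ↔ Structure.RelMap rAct ![v 0, v 1, v 2]
      apply iff_of_eq
      congr 1
      funext i
      fin_cases i <;> rfl
    have h3 : Tr L (fun v : Fin 3 → N => actR N (v 0) (v 1) (v 2))
      (fun v : Fin 3 → N => actR N (v 0) (v 1) (v 2)) := ⟨φ, h1, h1⟩
    exact h3.relabel ![a, b, c]
  have tr_half : ∀ {α : Type} (a b : α), Tr L (fun v : α → N => halfR N (v a) (v b))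
      (fun v : α → N => halfR N (v a) (v b)) := by
    intro α a b
    obtain ⟨φ, hφ⟩ := Set.empty_definable_iff.mp (hdef 2 rHalf)
    have h1 : ∀ v : Fin 2 → N, φ.Realize v ↔ halfR N (v 0) (v 1) := by
      intro v
      have h2 : v ∈ {x : Fin 2 → N | Structure.RelMap rHalf x} ↔ φ.Realize v := by
        rw [hφ]; rfl
      rw [← h2, Set.mem_ofPred_eq]
      change _ ↔ Structure.RelMap rHalf ![v 0, v 1]
      apply iff_of_eq
      congr 1
      funext i
      fin_cases i <;> rfl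
    have h3 : Tr L (fun v : Fin 2 → N => halfR N (v 0) (v 1))
      (fun v : Fin 2 → N => halfR N (v 0) (v 1)) := ⟨φ, h1, h1⟩
    exact h3.relabel ![a, b]
  have tr_E : ∀ {α : Type} (a b : α), Tr L (fun v : α → N => ∃ g, actR N g (v a) (v b))
      (fun v : α → N => ∃ g, actR N g (v a) (v b)) := by
    intro α a b
    exact Tr.ex (R := fun (v : α → N) g => actR N g (v a) (v b))
      (S := fun (v : α → N) g => actR N g (v a) (v b)) (tr_act none (some a) (some b))
  -- the formula for the half circles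
  obtain ⟨ψ, hψ, -⟩ := tr_half (α := Fin 2) 1 0
  obtain ⟨s, hs⟩ := uniform T Φ hBC ψ
  let k := s.card
  let e : Fin k ≃ s := s.equivFin.symm
  let ar : Fin k → ℕ := fun j => (e j).1.1.1.1
  let fo : ∀ j : Fin k, L.Formula (Fin (ar j + 1)) := fun j => (e j).1.1.1.2
  -- the balls
  let bl : ∀ j : Fin k, (Fin (ar j) → N) → N → N → Prop := fun j b q y =>
    ¬ ((fo j).Realize (Fin.cons y b : Fin (ar j + 1) → N) ↔
      (fo j).Realize (Fin.cons q b : Fin (ar j + 1) → N))
  let FF : Fin k → Set (Set N) := fun j => {A | ∃ b : Fin (ar j) → N, A = {y | bl j b p y}}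
  have hFF : ∀ j, FF j ⊆ Lam Φ N p := by
    rintro j _ ⟨b, rfl⟩
    exact ⟨inst N (fo j) b, ⟨(e j).1.1.1, (e j).1.1.2, b, rfl⟩, rfl⟩
  have tr_bl : ∀ {α : Type} (j : Fin k) (f : Fin (ar j) → α) (q y : α),
      Tr L (fun v : α → N => bl j (fun i => v (f i)) (v q) (v y))
        (fun v : α → N => bl j (fun i => v (f i)) (v q) (v y)) := by
    intro α j f q y
    have h0 : Tr L (fun v : Fin (ar j + 1) → N => (fo j).Realize v)
      (fun v : Fin (ar j + 1) → N => (fo j).Realize v) := ⟨fo j, fun _ => Iff.rfl, fun _ => Iff.rfl⟩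
    have h1 : ∀ y : α, Tr L (fun v : α → N => (fo j).Realize
          (Fin.cons (v y) (fun i => v (f i)) : Fin (ar j + 1) → N))
        (fun v : α → N => (fo j).Realize
          (Fin.cons (v y) (fun i => v (f i)) : Fin (ar j + 1) → N)) := by
      intro y
      have hc : ∀ v : α → N, (fo j).Realize (v ∘ (Fin.cons y f : Fin (ar j + 1) → α)) ↔
          (fo j).Realize (Fin.cons (v y) (fun i => v (f i)) : Fin (ar j + 1) → N) := by
        intro v
        apply iff_of_eq
        congr 1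
        funext i
        refine Fin.cases ?_ (fun i => ?_) i <;> rfl
      exact (h0.relabel (Fin.cons y f : Fin (ar j + 1) → α)).congr hc hc
    exact ((h1 y).iff (h1 q)).not
  -- proper balls
  let PB : ∀ j : Fin k, (Fin (ar j) → N) → N → N → Prop := fun j b q y =>
    (∃ x, (∃ g, actR N g y x) ∧ bl j b q x) ∧ ∃ x, (∃ g, actR N g y x) ∧ ¬ bl j b q x
  have tr_PB : ∀ {α : Type} (j : Fin k) (f : Fin (ar j) → α) (q y : α),
      Tr L (fun v : α → N => PB j (fun i => v (f i)) (v q) (v y))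
        (fun v : α → N => PB j (fun i => v (f i)) (v q) (v y)) := by
    intro α j f q y
    refine Tr.and ?_ ?_
    · exact Tr.ex (R := fun (v : α → N) x => (∃ g, actR N g (v y) x) ∧
          bl j (fun i => v (f i)) (v q) x)
        (S := fun (v : α → N) x => (∃ g, actR N g (v y) x) ∧
          bl j (fun i => v (f i)) (v q) x)
        ((tr_E (some y) none).and (tr_bl j (fun i => some (f i)) (some q) none))
    · exact Tr.ex (R := fun (v : α → N) x => (∃ g, actR N g (v y) x) ∧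
          ¬ bl j (fun i => v (f i)) (v q) x)
        (S := fun (v : α → N) x => (∃ g, actR N g (v y) x) ∧
          ¬ bl j (fun i => v (f i)) (v q) x)
        ((tr_E (some y) none).and (tr_bl j (fun i => some (f i)) (some q) none).not)
  have hPB : ∀ (j : Fin k) (b : Fin (ar j) → N) (y : N),
      PB j b p y ↔ Proper hA.grp y {z | bl j b p z} := by
    intro j b y
    simp only [PB, Proper, hA.mem_orbit_iff]
    rfl
  -- the set of points whose half circle is large
  let DD : N → N → Prop := fun q y => ∃ Z : (Σ j : Fin k, Fin (ar j)) → N,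
    ∀ w, ((∃ g, actR N g y w) ∧ ¬ halfR N y w) →
      ∃ j : Fin k, PB j (fun i => Z ⟨j, i⟩) q y ∧ bl j (fun i => Z ⟨j, i⟩) q w
  have tr_DD : ∀ {α : Type} (q y : α), Tr L (fun v : α → N => DD (v q) (v y))
      (fun v : α → N => DD (v q) (v y)) := by
    intro α q y
    refine Tr.exT (β := Σ j : Fin k, Fin (ar j))
      (R := fun (v : α → N) Z => ∀ w, ((∃ g, actR N g (v y) w) ∧ ¬ halfR N (v y) w) →
        ∃ j : Fin k, PB j (fun i => Z ⟨j, i⟩) (v q) (v y) ∧ bl j (fun i => Z ⟨j, i⟩) (v q) w)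
      (S := fun (v : α → N) Z => ∀ w, ((∃ g, actR N g (v y) w) ∧ ¬ halfR N (v y) w) →
        ∃ j : Fin k, PB j (fun i => Z ⟨j, i⟩) (v q) (v y) ∧ bl j (fun i => Z ⟨j, i⟩) (v q) w) ?_
    refine Tr.all (α := α ⊕ (Σ j : Fin k, Fin (ar j)))
      (R := fun (v : α ⊕ (Σ j : Fin k, Fin (ar j)) → N) w =>
        ((∃ g, actR N g (v (Sum.inl y)) w) ∧ ¬ halfR N (v (Sum.inl y)) w) →
        ∃ j : Fin k, PB j (fun i => v (Sum.inr ⟨j, i⟩)) (v (Sum.inl q)) (v (Sum.inl y)) ∧
          bl j (fun i => v (Sum.inr ⟨j, i⟩)) (v (Sum.inl q)) w)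
      (S := fun (v : α ⊕ (Σ j : Fin k, Fin (ar j)) → N) w =>
        ((∃ g, actR N g (v (Sum.inl y)) w) ∧ ¬ halfR N (v (Sum.inl y)) w) →
        ∃ j : Fin k, PB j (fun i => v (Sum.inr ⟨j, i⟩)) (v (Sum.inl q)) (v (Sum.inl y)) ∧
          bl j (fun i => v (Sum.inr ⟨j, i⟩)) (v (Sum.inl q)) w) ?_
    refine Tr.imp ((tr_E (some (Sum.inl y)) none).and
      (tr_half (some (Sum.inl y)) none).not) ?_
    refine Tr.exI (fun j => ?_)
    exact (tr_PB j (fun i => some (Sum.inr (⟨j, i⟩ : Σ j : Fin k, Fin (ar j))))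
        (some (Sum.inl q)) (some (Sum.inl y))).and
      (tr_bl j (fun i => some (Sum.inr (⟨j, i⟩ : Σ j : Fin k, Fin (ar j))))
        (some (Sum.inl q)) none)
  have hDD : ∀ y, DD p y ↔ Cov hA.grp FF y (MulAction.orbit hA.grp y \ {z | halfR N y z}) := by
    intro y
    constructor
    · rintro ⟨Z, hZ⟩
      refine ⟨fun j => {z | bl j (fun i => Z ⟨j, i⟩) p z}, fun j => ⟨_, rfl⟩, ?_⟩
      rintro x ⟨hx1, hx2⟩
      obtain ⟨j, hj1, hj2⟩ := hZ x ⟨(hA.mem_orbit_iff y x).mp hx1, hx2⟩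
      exact ⟨j, (hPB j _ y).mp hj1, hj2⟩
    · rintro ⟨B, hB, hcov⟩
      choose b hb using hB
      refine ⟨fun t => b t.1 t.2, ?_⟩
      rintro x ⟨hx1, hx2⟩
      obtain ⟨j, hj1, hj2⟩ := hcov x ⟨(hA.mem_orbit_iff y x).mpr hx1, hx2⟩
      rw [hb j] at hj1 hj2
      exact ⟨j, (hPB j _ y).mpr hj1, hj2⟩
  -- the similarity relation
  let SS : N → N → N → Prop := fun q y y' => ∃ j : Fin k, ∃ b : Fin (ar j) → N,
    PB j b q y ∧ bl j b q y ∧ bl j b q y'
  have tr_SS : ∀ {α : Type} (q y y' : α), Tr L (fun v : α → N => SS (v q) (v y) (v y'))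
      (fun v : α → N => SS (v q) (v y) (v y')) := by
    intro α q y y'
    refine Tr.exI (fun j => ?_)
    refine Tr.exT (β := Fin (ar j))
      (R := fun (v : α → N) b => PB j b (v q) (v y) ∧ bl j b (v q) (v y) ∧ bl j b (v q) (v y'))
      (S := fun (v : α → N) b => PB j b (v q) (v y) ∧ bl j b (v q) (v y) ∧ bl j b (v q) (v y'))
      ?_
    exact (tr_PB j (fun i => Sum.inr i) (Sum.inl q) (Sum.inl y)).and
      ((tr_bl j (fun i => Sum.inr i) (Sum.inl q) (Sum.inl y)).and
        (tr_bl j (fun i => Sum.inr i) (Sum.inl q) (Sum.inl y')))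
  have hSS : ∀ y y', SS p y y' ↔ Sim hA.grp FF y y' := by
    intro y y'
    constructor
    · rintro ⟨j, b, h1, h2, h3⟩
      exact ⟨j, {z | bl j b p z}, ⟨b, rfl⟩, (hPB j b y).mp h1, h2, h3⟩
    · rintro ⟨j, _, ⟨b, rfl⟩, h1, h2, h3⟩
      exact ⟨j, b, (hPB j b y).mpr h1, h2, h3⟩
  -- the half turn
  obtain ⟨t, ⟨x₀, y₀, hxy₀⟩, htau⟩ := hA.tau
  obtain ⟨τ, hτ, -⟩ := hA.exists_of hxy₀
  -- tameness
  obtain ⟨k1, hk1⟩ := tame_of_tr hBC N hN p (α := Fin 2)
    (fun v => ∃ y, actR N (v (some 0)) y (v none) ∧ DD (v (some 1)) y)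
    (Tr.ex (R := fun (v : Option (Fin 2) → N) y => actR N (v (some 0)) y (v none) ∧
        DD (v (some 1)) y)
      (S := fun (v : Option (Fin 2) → N) y => actR N (v (some 0)) y (v none) ∧
        DD (v (some 1)) y)
      ((tr_act (some (some 0)) none (some none)).and (tr_DD (some (some 1)) none)))
  obtain ⟨k2, hk2⟩ := tame_of_tr hBC N hN p (α := Fin 3)
    (fun v => ∃ y, actR N (v (some 0)) y (v none) ∧ ∃ y', actR N (v (some 1)) y y' ∧
      SS (v (some 2)) y y')
    (Tr.ex (R := fun (v : Option (Fin 3) → N) y => actR N (v (some 0)) y (v none) ∧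
        ∃ y', actR N (v (some 1)) y y' ∧ SS (v (some 2)) y y')
      (S := fun (v : Option (Fin 3) → N) y => actR N (v (some 0)) y (v none) ∧
        ∃ y', actR N (v (some 1)) y y' ∧ SS (v (some 2)) y y')
      ((tr_act (some (some 0)) none (some none)).and
        (Tr.ex (R := fun (v : Option (Option (Fin 3)) → N) y' =>
            actR N (v (some (some 1))) (v none) y' ∧ SS (v (some (some 2))) (v none) y')
          (S := fun (v : Option (Option (Fin 3)) → N) y' =>
            actR N (v (some (some 1))) (v none) y' ∧ SS (v (some (some 2))) (v none) y')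
          ((tr_act (some (some (some 1))) (some none) none).and
            (tr_SS (some (some (some 2))) (some none) none)))))
  obtain ⟨k3, hk3⟩ := tame_of_tr hBC N hN p (α := Fin 1)
    (fun v => ∃ g, actR N g (v (some 0)) (v none)) (tr_E (some 0) none)
  refine core (G := hA.grp) hA.eq_top hLam FF hFF (fun x => {y | halfR N x y}) τ ?_ ?_ ?_
    k1 ?_ k2 ?_ k3 ?_ hA.exists_seq
  · intro x y hy
    rw [hA.mem_orbit_iff]
    have h1 := hA.code_spec τ x
    rw [hτ] at h1
    exact (htau x (τ • x) y h1).1 hy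
  · intro x y hy
    rw [hA.mem_orbit_iff] at hy
    have h1 := hA.code_spec τ x
    rw [hτ] at h1
    exact (htau x (τ • x) y h1).2 hy
  · intro x
    obtain ⟨z, hz⟩ := hs N hN ![x]
    refine ⟨fun j => {y | bl j (fun i => z (e j).1.2 i) p y}, fun j => ⟨_, rfl⟩, ?_⟩
    intro y y' hyy
    have h1 : ∀ y, y ∈ inst N ψ ![x] ↔ halfR N x y := by
      intro y
      simp only [inst, Set.mem_ofPred_eq]
      rw [hψ]
      rfl
    have h2 := hz y y' (by
      intro q
      obtain ⟨i, rfl⟩ := e.surjective q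
      have h3 := hyy i
      simp only [bl, fo, Set.mem_ofPred_eq] at h3
      simp only [inst, Set.mem_ofPred_eq]
      tauto)
    rw [h1, h1] at h2
    exact h2
  · intro g
    have := hk1 ![hA.code g, p]
    convert this using 3
    rename_i x
    constructor
    · intro h
      refine ⟨g⁻¹ • x, (hA.inv_eq_iff g x _).mp rfl, (hDD _).mpr h⟩
    · rintro ⟨y, hy1, hy2⟩
      have h1 : g⁻¹ • x = y := (hA.inv_eq_iff g x y).mpr hy1
      rw [h1]
      exact (hDD y).mp hy2
  · intro h g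
    have := hk2 ![hA.code g, hA.code h, p]
    convert this using 3
    rename_i x
    constructor
    · intro hs
      refine ⟨g⁻¹ • x, (hA.inv_eq_iff g x _).mp rfl, h • g⁻¹ • x, hA.code_spec h _,
        (hSS _ _).mpr hs⟩
    · rintro ⟨y, hy1, y', hy2, hy3⟩
      have h1 : g⁻¹ • x = y := (hA.inv_eq_iff g x y).mpr hy1
      have h2 : h • y = y' := (hA.eq_iff h y y').mpr hy2
      rw [h1, Set.mem_ofPred_eq, h2]
      exact (hSS y y').mp hy3
  · intro c
    have := hk3 ![c]
    convert this using 1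
    ext x
    exact hA.mem_orbit_iff c x

end Pool.Agent.H74.CO
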