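import Pool.Agent.H74.CO.Model

/-!
# Quantifier elimination for the model
-/

set_option autoImplicit false

namespace Pool.Agent.H74.CO

open Set FirstOrder FirstOrder.Language

/-- Value of an affine form. -/
def ev {ι : Type} [Fintype ι] (f : (ι → ℚ) × ℚ) (s : ι → ℚ) : ℚ := ∑ i, f.1 i * s i + f.2

/-- The two points give the same signs to all the forms in `F`. -/
def SignEq {ι : Type} [Fintype ι] (F : Set ((ι → ℚ) × ℚ)) (s s' : ι → ℚ) : Prop :=
  ∀ f ∈ F, SignType.sign (ev f s) = SignType.sign (ev f s')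

lemma sign_sub_eq_iff {a b c d : ℚ} :
    SignType.sign (a - b) = SignType.sign (c - d) ↔ ((a < b ↔ c < d) ∧ (b < a ↔ d < c)) := by
  constructor
  · intro h
    rcases lt_trichotomy a b with h1 | h1 | h1
    · rw [sign_neg (by linarith : a - b < 0)] at h
      have := sign_eq_neg_one_iff.mp h.symm
      constructor
      · exact ⟨fun _ => by linarith, fun _ => h1⟩
      · exact ⟨fun _ => by linarith, fun _ => by linarith⟩
    · rw [h1, sub_self, sign_zero] at h
      have := sign_eq_zero_iff.mp h.symm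
      constructor
      · exact ⟨fun _ => by linarith, fun _ => by linarith⟩
      · exact ⟨fun _ => by linarith, fun _ => by linarith⟩
    · rw [sign_pos (by linarith : 0 < a - b)] at h
      have := sign_eq_one_iff.mp h.symm
      constructor
      · exact ⟨fun _ => by linarith, fun _ => by linarith⟩
      · exact ⟨fun _ => by linarith, fun _ => h1⟩
  · rintro ⟨h1, h2⟩
    rcases lt_trichotomy a b with h | h | h
    · have := h1.mp h
      rw [sign_neg (by linarith : a - b < 0), sign_neg (by linarith : c - d < 0)]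
    · have h3 : c = d := by
        rcases lt_trichotomy c d with h' | h' | h'
        · have := h1.mpr h'; linarith
        · exact h'
        · have := h2.mpr h'; linarith
      rw [h, h3, sub_self, sub_self]
    · have := h2.mp h
      rw [sign_pos (by linarith : 0 < a - b), sign_pos (by linarith : 0 < c - d)]

/-- Extending an order isomorphism of finite sets of rationals by one point. -/
lemma exists_extend {ι : Type} [Finite ι] (r r' : ι → ℚ)
    (h : ∀ i j, SignType.sign (r i - r j) = SignType.sign (r' i - r' j)) (x : ℚ) :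
    ∃ x' : ℚ, ∀ i, SignType.sign (x - r i) = SignType.sign (x' - r' i) := by
  classical
  have := Fintype.ofFinite ι
  by_cases hx : ∃ i, r i = x
  · obtain ⟨i, rfl⟩ := hx
    exact ⟨r' i, fun j => h i j⟩
  · push Not at hx
    obtain ⟨x', h1, h2⟩ := Order.exists_between_finsets
      ((Finset.univ.filter fun i => r i < x).image r')
      ((Finset.univ.filter fun i => x < r i).image r') (by
        intro a ha b hb
        obtain ⟨i, hi, rfl⟩ := Finset.mem_image.mp ha
        obtain ⟨j, hj, rfl⟩ := Finset.mem_image.mp hb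
        have h3 := (Finset.mem_filter.mp hi).2
        have h4 := (Finset.mem_filter.mp hj).2
        exact ((sign_sub_eq_iff.mp (h i j)).1).mp (h3.trans h4))
    refine ⟨x', fun i => ?_⟩
    rcases lt_or_gt_of_ne (hx i) with h3 | h3
    · have := h1 (r' i) (Finset.mem_image.mpr ⟨i, Finset.mem_filter.mpr ⟨Finset.mem_univ _, h3⟩,
        rfl⟩)
      rw [sign_pos (by linarith : 0 < x - r i), sign_pos (by linarith : 0 < x' - r' i)]
    · have := h2 (r' i) (Finset.mem_image.mpr ⟨i, Finset.mem_filter.mpr ⟨Finset.mem_univ _, h3⟩,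
        rfl⟩)
      rw [sign_neg (by linarith : x - r i < 0), sign_neg (by linarith : x' - r' i < 0)]

/-- The assignment extended by one value. -/
def ext {ι β : Type} (x : β) (s : ι → β) : Option ι → β := fun o => o.elim x s

lemma ev_ext {ι : Type} [Fintype ι] (f : (Option ι → ℚ) × ℚ) (x : ℚ) (s : ι → ℚ) :
    ev f (ext x s) = f.1 none * x + ev (fun i => f.1 (some i), f.2) s := by
  simp only [ev, ext, Fintype.sum_option, Option.elim_none, Option.elim_some]
  ring

lemma ev_smul {ι : Type} [Fintype ι] (f : (ι → ℚ) × ℚ) (c : ℚ) (s : ι → ℚ) :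
    ev (fun i => c * f.1 i, c * f.2) s = c * ev f s := by
  simp only [ev, mul_add, Finset.mul_sum, mul_assoc]

lemma ev_sub {ι : Type} [Fintype ι] (f g : (ι → ℚ) × ℚ) (s : ι → ℚ) :
    ev (fun i => f.1 i - g.1 i, f.2 - g.2) s = ev f s - ev g s := by
  simp only [ev, sub_mul, Finset.sum_sub_distrib]
  ring

/-- One step of elimination. -/
lemma elim_step {ι : Type} [Fintype ι] (F : Set ((Option ι → ℚ) × ℚ)) (hF : F.Finite) :
    ∃ F' : Set ((ι → ℚ) × ℚ), F'.Finite ∧ ∀ s s' : ι → ℚ, SignEq F' s s' →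
      ∀ x : ℚ, ∃ x' : ℚ, SignEq F (ext x s) (ext x' s') := by
  classical
  -- the root of a form
  let low : (Option ι → ℚ) × ℚ → (ι → ℚ) × ℚ := fun f => (fun i => f.1 (some i), f.2)
  let root : (Option ι → ℚ) × ℚ → (ι → ℚ) × ℚ := fun f =>
    (fun i => (-(f.1 none)⁻¹) * (low f).1 i, (-(f.1 none)⁻¹) * (low f).2)
  refine ⟨low '' F ∪ (fun p : ((Option ι → ℚ) × ℚ) × ((Option ι → ℚ) × ℚ) =>
    (fun i => (root p.1).1 i - (root p.2).1 i, (root p.1).2 - (root p.2).2)) '' (F ×ˢ F),
    (hF.image _).union ((hF.prod hF).image _), ?_⟩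
  intro s s' hs x
  have : Finite F := hF
  obtain ⟨x', hx'⟩ := exists_extend (ι := F) (fun f => ev (root f.1) s)
    (fun f => ev (root f.1) s') (by
      intro f g
      have := hs _ (Or.inr ⟨(f.1, g.1), ⟨f.2, g.2⟩, rfl⟩)
      rw [ev_sub, ev_sub] at this
      exact this) x
  refine ⟨x', ?_⟩
  intro f hf
  by_cases h0 : f.1 none = 0
  · have := hs _ (Or.inl ⟨f, hf, rfl⟩)
    rw [ev_ext, ev_ext, h0, zero_mul, zero_mul, zero_add, zero_add]
    exact this
  · have h1 := hx' ⟨f, hf⟩
    have h2 : ∀ (y : ℚ) (t : ι → ℚ), ev f (ext y t) = f.1 none * (y - ev (root f) t) := by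
      intro y t
      rw [ev_ext]
      simp only [root]
      rw [ev_smul]
      field_simp
      ring
    rw [h2, h2, sign_mul, sign_mul, h1]

/-- The coordinates. -/
noncomputable def co {ι : Type} (v : ι → M0) : ι → ℚ := fun i => coord (v i).2

/-- The two assignments have the same pattern of classes. -/
def PatEq {ι : Type} (v v' : ι → M0) : Prop :=
  (∀ i j, (v i).1 = (v j).1 ↔ (v' i).1 = (v' j).1) ∧ ∀ i, (v i).1 = 0 ↔ (v' i).1 = 0

/-- A predicate which only depends on the pattern and on finitely many signs. -/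
def Semi {ι : Type} [Fintype ι] (P : (ι → M0) → Prop) : Prop :=
  ∃ F : Set ((ι → ℚ) × ℚ), F.Finite ∧ ∀ v v' : ι → M0, PatEq v v' → SignEq F (co v) (co v') →
    (P v ↔ P v')

lemma PatEq.symm {ι : Type} {v v' : ι → M0} (h : PatEq v v') : PatEq v' v :=
  ⟨fun i j => (h.1 i j).symm, fun i => (h.2 i).symm⟩

lemma SignEq.symm {ι : Type} [Fintype ι] {F : Set ((ι → ℚ) × ℚ)} {s s' : ι → ℚ}
    (h : SignEq F s s') : SignEq F s' s := fun f hf => (h f hf).symm

lemma Semi.not {ι : Type} [Fintype ι] {P : (ι → M0) → Prop} (h : Semi P) :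
    Semi (fun v => ¬ P v) := by
  obtain ⟨F, hF, h⟩ := h
  exact ⟨F, hF, fun v v' h1 h2 => not_congr (h v v' h1 h2)⟩

lemma Semi.imp {ι : Type} [Fintype ι] {P Q : (ι → M0) → Prop} (h : Semi P) (h' : Semi Q) :
    Semi (fun v => P v → Q v) := by
  obtain ⟨F, hF, h⟩ := h
  obtain ⟨F', hF', h'⟩ := h'
  exact ⟨F ∪ F', hF.union hF', fun v v' h1 h2 => imp_congr
    (h v v' h1 (fun f hf => h2 f (Or.inl hf))) (h' v v' h1 (fun f hf => h2 f (Or.inr hf)))⟩

lemma Semi.congr {ι : Type} [Fintype ι] {P Q : (ι → M0) → Prop} (h : Semi P)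
    (hPQ : ∀ v, P v ↔ Q v) : Semi Q := by
  obtain ⟨F, hF, h⟩ := h
  exact ⟨F, hF, fun v v' h1 h2 => by rw [← hPQ, ← hPQ]; exact h v v' h1 h2⟩

lemma Semi.relabel {ι κ : Type} [Fintype ι] [Fintype κ] {P : (ι → M0) → Prop} (h : Semi P)
    (g : ι → κ) : Semi (fun v : κ → M0 => P (v ∘ g)) := by
  classical
  obtain ⟨F, hF, h⟩ := h
  let tr : (ι → ℚ) × ℚ → (κ → ℚ) × ℚ := fun f => (fun j => ∑ i, if g i = j then f.1 i else 0, f.2)
  have htr : ∀ f (s : κ → ℚ), ev (tr f) s = ev f (s ∘ g) := by
    intro f s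
    simp only [ev, tr, Finset.sum_mul, ite_mul, zero_mul, Function.comp]
    rw [Finset.sum_comm]
    simp
  refine ⟨tr '' F, hF.image _, fun v v' h1 h2 => ?_⟩
  apply h
  · exact ⟨fun i j => h1.1 _ _, fun i => h1.2 _⟩
  · intro f hf
    have := h2 (tr f) ⟨f, hf, rfl⟩
    rw [htr, htr] at this
    exact this

/-- A form which is a rational combination of four coordinates. -/
lemma semi_of_signs {ι : Type} [Fintype ι] (F : Set ((ι → ℚ) × ℚ)) (hF : F.Finite)
    (P : (ι → M0) → Prop) (h : ∀ v v' : ι → M0, PatEq v v' →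
      (∀ f ∈ F, (ev f (co v) < 0 ↔ ev f (co v') < 0) ∧ (0 < ev f (co v) ↔ 0 < ev f (co v'))) →
      (P v → P v')) : Semi P := by
  refine ⟨F, hF, fun v v' h1 h2 => ?_⟩
  have key : ∀ v v' : ι → M0, SignEq F (co v) (co v') →
      (∀ f ∈ F, (ev f (co v) < 0 ↔ ev f (co v') < 0) ∧ (0 < ev f (co v) ↔ 0 < ev f (co v'))) := by
    intro v v' h f hf
    have := h f hf
    have h3 : SignType.sign (ev f (co v) - 0) = SignType.sign (ev f (co v') - 0) := by
      simpa using this
    exact sign_sub_eq_iff.mp h3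
  exact ⟨h v v' h1 (key v v' h2), h v' v h1.symm (key v' v h2.symm)⟩

/-- The quantifier step. -/
lemma Semi.all {ι : Type} [Fintype ι] {P : (Option ι → M0) → Prop} (h : Semi P) :
    Semi (fun v : ι → M0 => ∀ x, P (ext x v)) := by
  classical
  obtain ⟨F, hF, h⟩ := h
  let f0 : (Option ι → ℚ) × ℚ := (fun o => o.elim 1 (fun _ => 0), 0)
  let f1 : (Option ι → ℚ) × ℚ := (fun o => o.elim 1 (fun _ => 0), -1)
  have hf0 : ∀ (x : ℚ) (s : ι → ℚ), ev f0 (ext x s) = x := by
    intro x s; simp [ev, f0, ext]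
  have hf1 : ∀ (x : ℚ) (s : ι → ℚ), ev f1 (ext x s) = x - 1 := by
    intro x s; simp [ev, f1, ext]; ring
  obtain ⟨F', hF', hstep⟩ := elim_step (F ∪ {f0, f1}) (hF.union (by simp))
  refine ⟨F', hF', ?_⟩
  have key : ∀ v v' : ι → M0, PatEq v v' → SignEq F' (co v) (co v') →
      (∀ x, P (ext x v)) → ∀ x, P (ext x v') := by
    intro v v' hpat hsign hall x
    -- find the corresponding point
    obtain ⟨q, hq⟩ := hstep (co v') (co v) hsign.symm (coord x.2)
    have hq0 : 0 ≤ q := by
      have := hq f0 (Or.inr (by simp))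
      rw [hf0, hf0] at this
      by_contra hlt
      have h2 : q < 0 := lt_of_not_ge hlt
      rw [sign_neg h2] at this
      have := sign_eq_neg_one_iff.mp this
      linarith [coord_nonneg x.2]
    have hq1 : q < 1 := by
      have := hq f1 (Or.inr (by simp))
      rw [hf1, hf1] at this
      rw [sign_neg (by linarith [coord_lt_one x.2] : coord x.2 - 1 < 0)] at this
      have := sign_eq_neg_one_iff.mp this.symm
      linarith
    have hcq : coord ((q : ℚ) : Circ) = q := coord_eq hq0 hq1 rfl
    -- the class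
    have hcls : ∃ u : ℕ, (∀ i, (v i).1 = u ↔ (v' i).1 = x.1) ∧ (u = 0 ↔ x.1 = 0) := by
      by_cases h1 : ∃ i, (v' i).1 = x.1
      · obtain ⟨i, hi⟩ := h1
        refine ⟨(v i).1, fun j => ?_, ?_⟩
        · rw [hpat.1 j i, hi]
        · rw [hpat.2 i, hi]
      · push Not at h1
        by_cases h2 : x.1 = 0
        · refine ⟨0, fun i => ?_, by simp [h2]⟩
          rw [hpat.2 i, h2]
        · obtain ⟨u, hu⟩ := Infinite.exists_notMem_finset
            (insert 0 (Finset.univ.image fun i => (v i).1))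
          simp only [Finset.mem_insert, Finset.mem_image, Finset.mem_univ, true_and, not_or,
            not_exists] at hu
          refine ⟨u, fun i => ?_, ?_⟩
          · exact ⟨fun h => absurd h (hu.2 i), fun h => absurd h (h1 i)⟩
          · exact ⟨fun h => absurd h hu.1, fun h => absurd h h2⟩
    obtain ⟨u, hu1, hu2⟩ := hcls
    refine (h (ext (u, ((q : ℚ) : Circ)) v) (ext x v') ?_ ?_).mp (hall _)
    · constructor
      · rintro (_ | i) (_ | j)
        · simp [ext]
        · simp only [ext, Option.elim_none, Option.elim_some]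
          rw [eq_comm, hu1 j, eq_comm]
        · simp only [ext, Option.elim_none, Option.elim_some]
          exact hu1 i
        · simp only [ext, Option.elim_some]
          exact hpat.1 i j
      · rintro (_ | i)
        · simp only [ext, Option.elim_none]
          exact hu2
        · simp only [ext, Option.elim_some]
          exact hpat.2 i
    · have e1 : ∀ (y : M0) (w : ι → M0), co (ext y w) = ext (coord y.2) (co w) := by
        intro y w
        funext o
        cases o <;> rfl
      rw [e1, e1]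
      change SignEq F (ext (coord ((q : ℚ) : Circ)) (co v)) _
      rw [hcq]
      exact fun f hf => (hq f (Or.inl hf)).symm
  intro v v' h1 h2
  exact ⟨key v v' h1 h2, key v' v h1.symm h2.symm⟩

end Pool.Agent.H74.CO
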