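import Pool.Agent.H74.CO.QE

/-!
# Quantifier elimination for the model, induction on formulas
-/

set_option autoImplicit false

namespace Pool.Agent.H74.CO

open Set FirstOrder FirstOrder.Language

/-- The form `s a`. -/
noncomputable def fv {ι : Type} (a : ι) : (ι → ℚ) × ℚ := by
  classical exact (Pi.single a 1, 0)

/-- The constant form. -/
def fc {ι : Type} (c : ℚ) : (ι → ℚ) × ℚ := (0, c)

lemma ev_fv {ι : Type} [Fintype ι] (a : ι) (s : ι → ℚ) : ev (fv a) s = s a := by
  classical
  simp [ev, fv, Pi.single_apply]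

lemma ev_fc {ι : Type} [Fintype ι] (c : ℚ) (s : ι → ℚ) : ev (fc c) s = c := by
  simp [ev, fc]

lemma ev_sub' {ι : Type} [Fintype ι] (f g : (ι → ℚ) × ℚ) (s : ι → ℚ) :
    ev (f - g) s = ev f s - ev g s := ev_sub f g s

lemma semi_false {ι : Type} [Fintype ι] : Semi (fun _ : ι → M0 => False) :=
  ⟨∅, Set.finite_empty, fun _ _ _ _ => Iff.rfl⟩

lemma semi_eq {ι : Type} [Fintype ι] (a b : ι) : Semi (fun v : ι → M0 => v a = v b) := by
  refine semi_of_signs {fv a - fv b} (Set.finite_singleton _) _ ?_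
  intro v v' hpat hsign heq
  obtain ⟨h1, h2⟩ := hsign _ rfl
  simp only [ev_sub', ev_fv, co, heq, sub_self, lt_irrefl, false_iff, not_lt] at h1 h2
  refine Prod.ext ((hpat.1 a b).mp (by rw [heq])) ?_
  apply coord_inj
  linarith

lemma semi_act {ι : Type} [Fintype ι] (a b c : ι) :
    Semi (fun v : ι → M0 => act0 (v a) (v b) (v c)) := by
  refine semi_of_signs {fv c - fv a - fv b, fv c - fv a - fv b - fc (-1)}
    (Set.toFinite _) _ ?_
  rintro v v' hpat hsign ⟨h1, h2, h3⟩
  refine ⟨(hpat.2 a).mp h1, (hpat.1 b c).mp h2, ?_⟩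
  obtain ⟨s1, s2⟩ := hsign _ (Or.inl rfl)
  obtain ⟨s3, s4⟩ := hsign _ (Or.inr rfl)
  simp only [ev_sub', ev_fv, ev_fc, co] at s1 s2 s3 s4
  rw [eq_add_iff] at h3 ⊢
  rcases h3 with h | h
  · left
    have e1 := mt s1.mpr (by linarith)
    have e2 := mt s2.mpr (by linarith)
    linarith
  · right
    have e1 := mt s3.mpr (by linarith)
    have e2 := mt s4.mpr (by linarith)
    linarith

lemma semi_half {ι : Type} [Fintype ι] (a b : ι) :
    Semi (fun v : ι → M0 => half0 (v a) (v b)) := by
  refine semi_of_signs {fv b - fv a, fv b - fv a - fc (1 / 2), fv b - fv a - fc (-(1 / 2))}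
    (Set.toFinite _) _ ?_
  rintro v v' hpat hsign ⟨h1, h2⟩
  refine ⟨(hpat.1 a b).mp h1, ?_⟩
  obtain ⟨s1, s2⟩ := hsign _ (Or.inl rfl)
  obtain ⟨s3, s4⟩ := hsign _ (Or.inr (Or.inl rfl))
  obtain ⟨s5, s6⟩ := hsign _ (Or.inr (Or.inr rfl))
  simp only [ev_sub', ev_fv, ev_fc, co] at s1 s2 s3 s4 s5 s6
  rw [coord_sub_lt_half_iff] at h2 ⊢
  rcases h2 with h | h
  · left
    have e1 := mt s1.mpr (by linarith [h.1])
    have e2 := s3.mp (by linarith [h.2])
    exact ⟨by linarith, by linarith⟩
  · right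
    have e1 := s5.mp (by linarith)
    linarith

lemma term_var {α : Type} (t : LT.Term α) : ∃ a, t = Term.var a := by
  cases t with
  | var a => exact ⟨a, rfl⟩
  | func f _ => exact f.elim

/-- Quantifier elimination. -/
theorem semi_formula {α : Type} [Fintype α] {n : ℕ} (φ : LT.BoundedFormula α n) :
    Semi (fun w : α ⊕ Fin n → M0 => φ.Realize (w ∘ Sum.inl) (w ∘ Sum.inr)) := by
  classical
  induction φ with
  | falsum => exact semi_false
  | equal t₁ t₂ =>
    obtain ⟨a, rfl⟩ := term_var t₁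
    obtain ⟨b, rfl⟩ := term_var t₂
    refine (semi_eq a b).congr (fun v => ?_)
    simp only [BoundedFormula.Realize, Term.realize_var, Sum.elim_comp_inl_inr]
  | @rel n l R ts =>
    have hts : ∀ i, ∃ a, ts i = Term.var a := fun i => term_var (ts i)
    choose a ha using hts
    have hr : ∀ v : α ⊕ Fin n → M0, (BoundedFormula.rel R ts).Realize (v ∘ Sum.inl) (v ∘ Sum.inr)
        ↔ Structure.RelMap R (fun i => v (a i)) := by
      intro v
      simp only [BoundedFormula.Realize, Sum.elim_comp_inl_inr]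
      apply iff_of_eq
      congr 1
      funext i
      rw [ha i, Term.realize_var]
    have hR : Semi (fun v : α ⊕ Fin n → M0 => Structure.RelMap R (fun i => v (a i))) := by
      cases R with
      | act => exact semi_act (a 0) (a 1) (a 2)
      | half => exact semi_half (a 0) (a 1)
    exact hR.congr (fun v => (hr v).symm)
  | imp _ _ ih1 ih2 => exact ih1.imp ih2
  | @all n φ ih =>
    let g : α ⊕ Fin (n + 1) → Option (α ⊕ Fin n) := Sum.elim (fun a => some (Sum.inl a))
      (fun i => Fin.lastCases (motive := fun _ => Option (α ⊕ Fin n)) none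
        (fun i => some (Sum.inr i)) i)
    have h1 := (ih.relabel g).all
    refine h1.congr (fun v => ?_)
    simp only [BoundedFormula.Realize]
    apply forall_congr'
    intro x
    apply iff_of_eq
    congr 1
    funext i
    refine Fin.lastCases ?_ (fun i => ?_) i
    · simp [g, ext]
    · simp [g, ext]

end Pool.Agent.H74.CO
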